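import Mathlib

/-!
PROJECT QB (MP_6cd5f1_al). Orders of poles at `q = 1` of Hilbert series.
-/

set_option autoImplicit false

open Polynomial

namespace Pool.Agent.Helper67.QB

/-- The product of the `1 - X ^ w i`. -/
noncomputable def pp {ι : Type*} [Fintype ι] (w : ι → ℕ) : ℤ[X] := ∏ i, (1 - X ^ w i)

theorem pp_eq {ι : Type*} [Fintype ι] (w : ι → ℕ) :
    pp w = (1 - X) ^ Fintype.card ι * ∏ i, ∑ j ∈ Finset.range (w i), (X : ℤ[X]) ^ j := by
  unfold pp
  rw [← Finset.card_univ, ← Finset.prod_const, ← Finset.prod_mul_distrib]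
  refine Finset.prod_congr rfl fun i _ => ?_
  rw [mul_neg_geom_sum]

theorem eval_geom {ι : Type*} [Fintype ι] (w : ι → ℕ) (hw : ∀ i, 1 ≤ w i) :
    (∏ i, ∑ j ∈ Finset.range (w i), (X : ℤ[X]) ^ j).eval 1 ≠ 0 := by
  rw [eval_prod, Finset.prod_ne_zero_iff]
  intro i _
  rw [eval_finsetSum]
  simp only [eval_pow, eval_X, one_pow, Finset.sum_const, Finset.card_range, nsmul_eq_mul, mul_one]
  have := hw i
  omega

theorem pow_eq {m n : ℕ} {U V : ℤ[X]} (hU : U.eval 1 ≠ 0)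
    (h : (1 - X) ^ m * U = (1 - X) ^ n * V) : n ≤ m := by
  by_contra hmn
  rw [not_le] at hmn
  obtain ⟨l, rfl⟩ := Nat.exists_eq_add_of_lt hmn
  have h0 : ((1 - X : ℤ[X]) ^ m) ≠ 0 := by
    apply pow_ne_zero
    intro h1
    have := congrArg (fun p => p.coeff 0) h1
    simp at this
  rw [add_assoc, pow_add, mul_assoc] at h
  have h1 := mul_left_cancel₀ h0 h
  apply hU
  rw [h1, eval_mul, eval_pow]
  simp

/-- Comparison of the orders at `1`. -/
theorem card_eq {ι κ : Type*} [Fintype ι] [Fintype κ] (w : ι → ℕ) (v : κ → ℕ)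
    (hw : ∀ i, 1 ≤ w i) (hv : ∀ i, 1 ≤ v i) {U V : ℤ[X]} (hU : U.eval 1 ≠ 0) (hV : V.eval 1 ≠ 0)
    (h : pp w * U = pp v * V) : Fintype.card ι = Fintype.card κ := by
  rw [pp_eq, pp_eq, mul_assoc, mul_assoc] at h
  apply le_antisymm
  · refine pow_eq (U := (∏ i, ∑ j ∈ Finset.range (v i), (X : ℤ[X]) ^ j) * V) ?_ h.symm
    rw [eval_mul]
    exact mul_ne_zero (eval_geom v hv) hV
  · refine pow_eq (U := (∏ i, ∑ j ∈ Finset.range (w i), (X : ℤ[X]) ^ j) * U) ?_ h
    rw [eval_mul]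
    exact mul_ne_zero (eval_geom w hw) hU

/-- The product of the `1 - X ^ w i` as a power series. -/
noncomputable def ps {ι : Type*} [Fintype ι] (w : ι → ℕ) : PowerSeries ℤ :=
  ((pp w : ℤ[X]) : PowerSeries ℤ)

theorem ps_eq {ι : Type*} [Fintype ι] (w : ι → ℕ) : ps w = ∏ i, (1 - PowerSeries.X ^ w i) := by
  unfold ps pp
  rw [← Polynomial.coeToPowerSeries.ringHom_apply, map_prod]
  refine Finset.prod_congr rfl fun i _ => ?_
  rw [map_sub, map_one, map_pow, Polynomial.coeToPowerSeries.ringHom_apply, Polynomial.coe_X]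

/-- The product of the `1 + X + .. + X ^ (w i - 1)` with coefficients in `ℕ`. -/
noncomputable def gg {ι : Type*} [Fintype ι] (w : ι → ℕ) : ℕ[X] :=
  ∏ i, ∑ j ∈ Finset.range (w i), (X : ℕ[X]) ^ j

theorem gg_coeff_zero {ι : Type*} [Fintype ι] (w : ι → ℕ) (hw : ∀ i, 1 ≤ w i) :
    (gg w).coeff 0 = 1 := by
  unfold gg
  rw [coeff_zero_eq_eval_zero, eval_prod]
  refine Finset.prod_eq_one fun i _ => ?_
  obtain ⟨m, hm⟩ := Nat.exists_eq_add_of_le (hw i)
  rw [hm, add_comm, Finset.sum_range_succ', eval_add, eval_finsetSum]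
  simp

theorem pp_eq' {ι : Type*} [Fintype ι] (w : ι → ℕ) :
    pp w = (1 - X) ^ Fintype.card ι * (gg w).map (Nat.castRingHom ℤ) := by
  rw [pp_eq]
  unfold gg
  rw [Polynomial.map_prod]
  congr 1
  refine Finset.prod_congr rfl fun i _ => ?_
  rw [Polynomial.map_sum]
  refine Finset.sum_congr rfl fun j _ => ?_
  rw [Polynomial.map_pow, Polynomial.map_X]

theorem ps_eq' {ι : Type*} [Fintype ι] (w : ι → ℕ) :
    ps w = (1 - PowerSeries.X) ^ Fintype.card ι *
      (((gg w).map (Nat.castRingHom ℤ) : ℤ[X]) : PowerSeries ℤ) := by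
  unfold ps
  rw [pp_eq', Polynomial.coe_mul, Polynomial.coe_pow, Polynomial.coe_sub, Polynomial.coe_one,
    Polynomial.coe_X]

theorem one_sub_X_ne_zero : (1 - PowerSeries.X : PowerSeries ℤ) ≠ 0 := by
  intro h
  have := congrArg (PowerSeries.coeff 0) h
  simp at this

/-- A power series with coefficients `≥ 0` which is a polynomial with value `0` at `1` is zero. -/
theorem coeff_zero_of_eval {H : PowerSeries ℤ} (hH : ∀ n, 0 ≤ PowerSeries.coeff n H) {u : ℤ[X]}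
    (h : H = (u : PowerSeries ℤ)) (h1 : u.eval 1 = 0) (n : ℕ) : PowerSeries.coeff n H = 0 := by
  have hu : ∀ n, 0 ≤ u.coeff n := by
    intro n
    have := hH n
    rwa [h, Polynomial.coeff_coe] at this
  rw [eval_eq_sum_range] at h1
  simp only [one_pow, mul_one] at h1
  rw [Finset.sum_eq_zero_iff_of_nonneg (fun i _ => hu i)] at h1
  rw [h, Polynomial.coeff_coe]
  by_cases hn : n ∈ Finset.range (u.natDegree + 1)
  · exact h1 n hn
  · rw [Finset.mem_range, not_lt] at hn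
    exact coeff_eq_zero_of_natDegree_lt (by omega)

/-- The pole of the Hilbert series of `S`. -/
theorem pole_data {ιo ιe ιθ : Type*} [Fintype ιo] [Fintype ιe] [Fintype ιθ] (wo : ιo → ℕ)
    (we : ιe → ℕ) (wθ : ιθ → ℕ) (he : ∀ i, 1 ≤ we i) (hθ : ∀ i, 1 ≤ wθ i) (HS : PowerSeries ℤ)
    (hHS : ∀ n, 0 ≤ PowerSeries.coeff n HS) (hHS0 : PowerSeries.coeff 0 HS = 1) (f : ℤ[X])
    (h : HS * ps we * ps wθ = (f : PowerSeries ℤ) * ps wo) :
    Fintype.card ιo ≤ Fintype.card ιe + Fintype.card ιθ ∧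
      ∃ g : ℕ[X], 1 ≤ g.coeff 0 ∧ ∃ u : ℤ[X],
        HS * (1 - PowerSeries.X) ^ (Fintype.card ιe + Fintype.card ιθ - Fintype.card ιo) *
          ((g.map (Nat.castRingHom ℤ) : ℤ[X]) : PowerSeries ℤ) = (u : PowerSeries ℤ) := by
  have hg : (gg we * gg wθ).coeff 0 = 1 := by
    rw [mul_coeff_zero, gg_coeff_zero we he, gg_coeff_zero wθ hθ, mul_one]
  have hgm : (((gg we * gg wθ).map (Nat.castRingHom ℤ) : ℤ[X]) : PowerSeries ℤ) =
      (((gg we).map (Nat.castRingHom ℤ) : ℤ[X]) : PowerSeries ℤ) *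
        (((gg wθ).map (Nat.castRingHom ℤ) : ℤ[X]) : PowerSeries ℤ) := by
    rw [Polynomial.map_mul, Polynomial.coe_mul]
  rw [ps_eq' we, ps_eq' wθ, ps_eq' wo] at h
  have h' : (1 - PowerSeries.X) ^ (Fintype.card ιe + Fintype.card ιθ) * (HS *
      (((gg we * gg wθ).map (Nat.castRingHom ℤ) : ℤ[X]) : PowerSeries ℤ)) =
      (1 - PowerSeries.X) ^ Fintype.card ιo *
        ((f * (gg wo).map (Nat.castRingHom ℤ) : ℤ[X]) : PowerSeries ℤ) := by
    rw [hgm, Polynomial.coe_mul, pow_add]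
    linear_combination h
  have hle : Fintype.card ιo ≤ Fintype.card ιe + Fintype.card ιθ := by
    by_contra hlt
    rw [not_le] at hlt
    obtain ⟨l, hl⟩ := Nat.exists_eq_add_of_lt hlt
    rw [hl, add_assoc _ l 1, pow_add _ (_ + _) (l + 1), mul_assoc _ (_ ^ (l + 1))] at h'
    have h1 := mul_left_cancel₀ (pow_ne_zero _ one_sub_X_ne_zero) h'
    have h2 : HS * (((gg we * gg wθ).map (Nat.castRingHom ℤ) : ℤ[X]) : PowerSeries ℤ) =
        (((1 - X) ^ (l + 1) * (f * (gg wo).map (Nat.castRingHom ℤ)) : ℤ[X]) : PowerSeries ℤ) := by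
      rw [h1, Polynomial.coe_mul ((1 - X) ^ (l + 1)), Polynomial.coe_pow, Polynomial.coe_sub,
        Polynomial.coe_one, Polynomial.coe_X]
    have h3 : ∀ n, 0 ≤ PowerSeries.coeff n
        (HS * (((gg we * gg wθ).map (Nat.castRingHom ℤ) : ℤ[X]) : PowerSeries ℤ)) := by
      intro n
      rw [PowerSeries.coeff_mul]
      refine Finset.sum_nonneg fun p _ => mul_nonneg (hHS _) ?_
      rw [Polynomial.coeff_coe, coeff_map]
      simp
    have h4 := coeff_zero_of_eval h3 h2 (by rw [eval_mul, eval_pow]; simp) 0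
    rw [PowerSeries.coeff_mul, Finset.Nat.antidiagonal_zero, Finset.sum_singleton, hHS0,
      Polynomial.coeff_coe, coeff_map, hg] at h4
    simp at h4
  refine ⟨hle, gg we * gg wθ, by rw [hg], f * (gg wo).map (Nat.castRingHom ℤ), ?_⟩
  obtain ⟨l, hl⟩ := Nat.exists_eq_add_of_le hle
  rw [hl, pow_add, mul_assoc] at h'
  have h1 := mul_left_cancel₀ (pow_ne_zero _ one_sub_X_ne_zero) h'
  rw [hl, Nat.add_sub_cancel_left, ← h1]
  ring

end Pool.Agent.Helper67.QB
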