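import Mathlib

/-!
PROJECT QB (MP_6cd5f1_al, Quillen's conjecture over graded Cohen-Macaulay rings).
Subcomplexes of one ambient complex, the top degree of the homology.

`M` an additive group with `d : M →+ M`, a subcomplex is a family `A : ℤ → AddSubgroup M`
(`A n` = the elements of degree `n` of the subcomplex).
`Ex d A n`: the homology of `A` in degree `n` is zero.
`IsSup d A s`: `s` is the largest degree in which the homology is not zero.
`Even step`: `p` of degree `-e`, `e ≥ 2`, commuting with `d`, `A n = ker p` in `B n`, `p` onto: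
  `sup A = sup B + e - 1`.
`Odd step`: `A ⊆ B = A ⊕ y A`, `y` of degree `e`, `d y + y d = z` (on `A`), `z` nilpotent on the
homology of `A`: `sup B = sup A + e`.
-/

set_option autoImplicit false

namespace Pool.Agent.Helper67.QB

variable {M : Type*} [AddCommGroup M]

/-- The homology of the subcomplex `A` in degree `n` is zero. -/
def Ex (d : M →+ M) (A : ℤ → AddSubgroup M) (n : ℤ) : Prop :=
  ∀ z ∈ A n, d z = 0 → ∃ w ∈ A (n + 1), d w = z

/-- `s` is the largest degree in which the homology of `A` is not zero. -/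
structure IsSup (d : M →+ M) (A : ℤ → AddSubgroup M) (s : ℤ) : Prop where
  above : ∀ n, s < n → Ex d A n
  at_ : ¬ Ex d A s

theorem IsSup.unique {d : M →+ M} {A : ℤ → AddSubgroup M} {s t : ℤ} (hs : IsSup d A s)
    (ht : IsSup d A t) : s = t := by
  rcases lt_trichotomy s t with h | h | h
  · exact absurd (hs.above t h) ht.at_
  · exact h
  · exact absurd (ht.above s h) hs.at_

/-- If the homology vanishes in all degrees above `t` and is not zero in degree `n0` then there is
a largest degree with nonzero homology. -/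
theorem exists_isSup {d : M →+ M} {A : ℤ → AddSubgroup M} (t n0 : ℤ) (ht : ∀ n, t < n → Ex d A n)
    (h0 : ¬ Ex d A n0) : ∃ s, n0 ≤ s ∧ s ≤ t ∧ IsSup d A s := by
  classical
  have hn0 : n0 ≤ t := by
    by_contra h
    exact h0 (ht n0 (not_le.mp h))
  have hex : ∃ k : ℕ, ¬ Ex d A (t - k) := ⟨(t - n0).toNat, by
    rw [Int.toNat_of_nonneg (by omega)]
    simpa using h0⟩
  refine ⟨t - (Nat.find hex : ℤ), ?_, by omega, ?_, Nat.find_spec hex⟩
  · have : Nat.find hex ≤ (t - n0).toNat := Nat.find_min' hex (by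
      rw [Int.toNat_of_nonneg (by omega)]
      simpa using h0)
    omega
  · intro n hn
    by_cases hnt : t < n
    · exact ht n hnt
    · have h := Nat.find_min hex (m := (t - n).toNat) (by omega)
      rw [not_not, Int.toNat_of_nonneg (by omega)] at h
      simpa using h

/-- Even step. -/
theorem isSup_even {d : M →+ M} (hdd : ∀ x, d (d x) = 0) {A B : ℤ → AddSubgroup M} (p : M →+ M)
    (e : ℤ) (he : 2 ≤ e)
    (hdB : ∀ n, ∀ x ∈ B n, d x ∈ B (n - 1))
    (hpd : ∀ n, ∀ x ∈ B n, p (d x) = d (p x))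
    (hpB : ∀ n, ∀ x ∈ B n, p x ∈ B (n - e))
    (hker : ∀ n x, x ∈ A n ↔ x ∈ B n ∧ p x = 0)
    (hsurj : ∀ n, ∀ x ∈ B (n - e), ∃ y ∈ B n, p y = x)
    {s : ℤ} (h : IsSup d B s) : IsSup d A (s + e - 1) := by
  constructor
  · intro n hn z hz hdz
    -- z a cycle of A in degree n > s + e - 1, it is a boundary in B
    obtain ⟨hzB, hpz⟩ := (hker n z).1 hz
    obtain ⟨w, hw, hwz⟩ := h.above n (by omega) z hzB hdz
    -- p w is a cycle of degree n + 1 - e > s
    have hc : d (p w) = 0 := by rw [← hpd _ w hw, hwz, hpz]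
    obtain ⟨v, hv, hvw⟩ := h.above (n + 1 - e) (by omega) (p w) (hpB _ w hw) hc
    have e1 : n + 1 - e + 1 = n + 2 - e := by ring
    rw [e1] at hv
    obtain ⟨u, hu, huv⟩ := hsurj (n + 2) v hv
    have hdu : d u ∈ B (n + 1) := by
      have := hdB _ u hu
      rwa [show n + 2 - 1 = n + 1 by ring] at this
    refine ⟨w - d u, (hker _ _).2 ⟨sub_mem hw hdu, ?_⟩, ?_⟩
    · rw [map_sub, hpd _ u hu, huv, hvw, sub_self]
    · rw [map_sub, hdd, sub_zero, hwz]
  · intro hex
    apply h.at_
    intro z hz hdz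
    -- z a cycle of B of degree s; lift it by p
    obtain ⟨y, hy, hyz⟩ := hsurj (s + e) z (by rwa [show s + e - e = s by ring])
    -- d y is a cycle of A of degree s + e - 1
    have hdy : d y ∈ A (s + e - 1) :=
      (hker _ _).2 ⟨hdB _ y hy, by rw [hpd _ y hy, hyz, hdz]⟩
    obtain ⟨w, hw, hwy⟩ := hex (d y) hdy (hdd y)
    rw [show s + e - 1 + 1 = s + e by ring] at hw
    obtain ⟨hwB, hpw⟩ := (hker _ w).1 hw
    -- y - w is a cycle of degree s + e > s
    obtain ⟨u, hu, huy⟩ := h.above (s + e) (by omega) (y - w) (sub_mem hy hwB)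
      (by rw [map_sub, hwy, sub_self])
    refine ⟨p u, ?_, ?_⟩
    · have := hpB _ u hu
      rwa [show s + e + 1 - e = s + 1 by ring] at this
    · rw [← hpd _ u hu, huy, map_sub, hyz, hpw, sub_zero]

/-- The data of an odd step: every element of `B n` is `a + y a'` in a unique way. -/
structure OddStep (d : M →+ M) (A B : ℤ → AddSubgroup M) (y z : M →+ M) (e : ℤ) : Prop where
  dA : ∀ n, ∀ x ∈ A n, d x ∈ A (n - 1)
  sub : ∀ n, A n ≤ B n
  yB : ∀ n, ∀ x ∈ A n, y x ∈ B (n + e)
  zA : ∀ n, ∀ x ∈ A n, z x ∈ A (n + e - 1)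
  dy : ∀ n, ∀ x ∈ A n, d (y x) = z x - y (d x)
  dz : ∀ n, ∀ x ∈ A n, d (z x) = z (d x)
  ex : ∀ n, ∀ x ∈ B n, ∃ a ∈ A n, ∃ b ∈ A (n - e), x = a + y b
  un : ∀ n, ∀ a ∈ A n, ∀ b ∈ A (n - e), a + y b = 0 → a = 0 ∧ b = 0

variable {d : M →+ M} {A B : ℤ → AddSubgroup M} {y z : M →+ M} {e : ℤ}

/-- Exactness at `H_n(A)`: a cycle of `A` that is a boundary in `B` is `z b` up to a boundary. -/
theorem OddStep.mem_z (h : OddStep d A B y z e) {n : ℤ} {x : M} (hx : x ∈ A n)
    (hb : ∃ w ∈ B (n + 1), d w = x) :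
    ∃ b ∈ A (n + 1 - e), d b = 0 ∧ ∃ a ∈ A (n + 1), x = z b + d a := by
  obtain ⟨w, hw, hwx⟩ := hb
  obtain ⟨a, ha, b, hb, rfl⟩ := h.ex _ w hw
  have h1 : d (a + y b) = (d a + z b) + y (-d b) := by
    rw [map_add, h.dy _ b hb, map_neg]
    abel
  have hz : z b ∈ A n := by
    have := h.zA _ b hb
    rwa [show n + 1 - e + e - 1 = n by ring] at this
  have hda : d a ∈ A n := by
    have := h.dA _ a ha
    rwa [show n + 1 - 1 = n by ring] at this
  have hdb : -d b ∈ A (n - e) := by
    have := h.dA _ b hb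
    rw [show n + 1 - e - 1 = n - e by ring] at this
    exact neg_mem this
  have h2 := h.un n (d a + z b - x) (sub_mem (add_mem hda hz) hx) (-d b) hdb (by
    rw [← hwx, h1]; abel)
  refine ⟨b, hb, by simpa using h2.2, a, ha, ?_⟩
  have := sub_eq_zero.1 h2.1
  rw [← this]; abel

/-- If the homology of `B` vanishes above `t` and `z ^ N` maps cycles of `A` to boundaries then
the homology of `A` vanishes in large degrees. -/
theorem OddStep.bounded (h : OddStep d A B y z e) (he : 1 ≤ e) {t : ℤ}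
    (ht : ∀ n, t < n → Ex d B n) (N : ℕ)
    (hN : ∀ n, ∀ x ∈ A n, d x = 0 → ∃ w ∈ A (n + N * (e - 1) + 1), d w = z^[N] x) :
    ∀ n, t + N * (e - 1) < n → Ex d A n := by
  -- every cycle of degree n > t + k (e - 1) is z^k b up to a boundary
  have key : ∀ k : ℕ, ∀ n : ℤ, t + k * (e - 1) < n + (e - 1) → ∀ x ∈ A n, d x = 0 → k ≠ 0 →
      ∃ b ∈ A (n - k * (e - 1)), d b = 0 ∧ ∃ a ∈ A (n + 1), x = z^[k] b + d a := by
    intro k
    induction k with
    | zero => intro n _ x _ _ h0; exact absurd rfl h0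
    | succ k ih =>
      intro n hn x hx hdx _
      by_cases hk : k = 0
      · subst hk
        have hn' : t < n := by push_cast at hn; linarith
        obtain ⟨w, hw, hwx⟩ := ht n hn' x (h.sub _ hx) hdx
        obtain ⟨b, hb, hdb, a, ha, hab⟩ := h.mem_z hx ⟨w, hw, hwx⟩
        refine ⟨b, ?_, hdb, a, ha, by simpa using hab⟩
        rw [show n - ((0 + 1 : ℕ) : ℤ) * (e - 1) = n + 1 - e by push_cast; ring]
        exact hb
      · obtain ⟨b, hb, hdb, a, ha, hab⟩ := ih n (by push_cast at hn ⊢; nlinarith) x hx hdx hk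
        have hn' : t < n - k * (e - 1) := by push_cast at hn; linarith
        obtain ⟨w, hw, hwb⟩ := ht _ hn' b (h.sub _ hb) hdb
        obtain ⟨b', hb', hdb', a', ha', hab'⟩ := h.mem_z hb ⟨w, hw, hwb⟩
        have hza : ∀ j : ℕ, ∀ m : ℤ, ∀ u ∈ A m, z^[j] u ∈ A (m + j * (e - 1)) ∧
            d (z^[j] u) = z^[j] (d u) := by
          intro j
          induction j with
          | zero => intro m u hu; simpa using hu
          | succ j ihj =>
            intro m u hu
            obtain ⟨h1, h2⟩ := ihj m u hu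
            rw [Function.iterate_succ_apply', Function.iterate_succ_apply']
            refine ⟨?_, ?_⟩
            · have := h.zA _ _ h1
              rwa [show m + j * (e - 1) + e - 1 = m + ((j + 1 : ℕ) : ℤ) * (e - 1) by
                push_cast; ring] at this
            · rw [h.dz _ _ h1, h2]
        have hadd : ∀ j : ℕ, ∀ u v : M, z^[j] (u + v) = z^[j] u + z^[j] v := by
          intro j
          induction j with
          | zero => intro u v; rfl
          | succ j ihj =>
            intro u v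
            rw [Function.iterate_succ_apply', Function.iterate_succ_apply',
              Function.iterate_succ_apply', ihj, map_add]
        refine ⟨b', ?_, hdb', a + z^[k] a', ?_, ?_⟩
        · rw [show n - ((k + 1 : ℕ) : ℤ) * (e - 1) = n - k * (e - 1) + 1 - e by push_cast; ring]
          exact hb'
        · refine add_mem ha ?_
          have := (hza k _ a' ha').1
          rwa [show n - k * (e - 1) + 1 + k * (e - 1) = n + 1 by ring] at this
        · rw [hab, hab', hadd, map_add, (hza k _ a' ha').2, Function.iterate_succ_apply]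
          abel
  intro n hn x hx hdx
  by_cases hN0 : N = 0
  · subst hN0
    obtain ⟨w, hw, hwx⟩ := hN n x hx hdx
    refine ⟨w, ?_, by simpa using hwx⟩
    simpa using hw
  · obtain ⟨b, hb, hdb, a, ha, hab⟩ := key N n (by linarith) x hx hdx hN0
    obtain ⟨w, hw, hwb⟩ := hN _ b hb hdb
    rw [show n - N * (e - 1) + N * (e - 1) + 1 = n + 1 by ring] at hw
    exact ⟨w + a, add_mem hw ha, by rw [map_add, hwb, hab]⟩

/-- The homology of `B` vanishes above `s + e` if the homology of `A` vanishes above `s`. -/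
theorem OddStep.above (h : OddStep d A B y z e) (he : 1 ≤ e) {s : ℤ}
    (hs : ∀ n, s < n → Ex d A n) : ∀ n, s + e < n → Ex d B n := by
  intro n hn x hx hdx
  obtain ⟨a, ha, b, hb, rfl⟩ := h.ex _ x hx
  have h1 : d (a + y b) = (d a + z b) + y (-d b) := by
    rw [map_add, h.dy _ b hb, map_neg]; abel
  have hz : z b ∈ A (n - 1) := by
    have := h.zA _ b hb
    rwa [show n - e + e - 1 = n - 1 by ring] at this
  have hdb : -d b ∈ A (n - 1 - e) := by
    have := h.dA _ b hb
    rw [show n - e - 1 = n - 1 - e by ring] at this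
    exact neg_mem this
  obtain ⟨h2, h3⟩ := h.un (n - 1) (d a + z b) (add_mem (h.dA _ a ha) hz) (-d b) hdb
    (by rw [← h1, hdx])
  obtain ⟨b', hb', hbb⟩ := hs (n - e) (by omega) b hb (by simpa using h3)
  have hzb' : z b' ∈ A n := by
    have := h.zA _ b' hb'
    rwa [show n - e + 1 + e - 1 = n by ring] at this
  have hdy := h.dy _ b' hb'
  obtain ⟨w, hw, hww⟩ := hs n (by omega) (a + z b') (add_mem ha hzb')
    (by rw [map_add, h.dz _ b' hb', hbb, h2])
  refine ⟨w - y b', sub_mem (h.sub _ hw) ?_, ?_⟩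
  · have := h.yB _ b' hb'
    rwa [show n - e + 1 + e = n + 1 by ring] at this
  · rw [map_sub, hww, hdy, hbb]; abel

/-- Odd step. -/
theorem OddStep.isSup (h : OddStep d A B y z e) (he : 1 ≤ e) {s : ℤ} (hs : IsSup d A s) (N : ℕ)
    (hN : e = 1 → ∀ x ∈ A s, d x = 0 → ∃ w ∈ A (s + 1), d w = z^[N] x) :
    IsSup d B (s + e) := by
  refine ⟨h.above he hs.above, ?_⟩
  intro hex
  -- a cycle `u` of degree `s`, not a boundary, with `z u` a boundary
  obtain ⟨u, hu, hdu, hub, a, ha, hza⟩ : ∃ u ∈ A s, d u = 0 ∧ (¬ ∃ w ∈ A (s + 1), d w = u) ∧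
      ∃ a ∈ A (s + e), d a = z u := by
    have h0 := hs.at_
    unfold Ex at h0
    push Not at h0
    obtain ⟨x, hx, hdx, hxb⟩ := h0
    rcases he.eq_or_lt with he1 | he1
    · subst he1
      have hzk : ∀ k : ℕ, z^[k] x ∈ A s ∧ d (z^[k] x) = 0 := by
        intro k
        induction k with
        | zero => exact ⟨hx, hdx⟩
        | succ k ih =>
          rw [Function.iterate_succ_apply']
          refine ⟨?_, ?_⟩
          · have := h.zA _ _ ih.1
            rwa [show s + 1 - 1 = s by ring] at this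
          · rw [h.dz _ _ ih.1, ih.2, map_zero]
      classical
      have hex' : ∃ k : ℕ, ∃ w ∈ A (s + 1), d w = z^[k] x := ⟨N, hN rfl x hx hdx⟩
      have hpos : Nat.find hex' ≠ 0 := by
        intro h0
        obtain ⟨w, hw, hww⟩ := Nat.find_spec hex'
        rw [h0] at hww
        exact hxb w hw hww
      obtain ⟨k, hk⟩ := Nat.exists_eq_succ_of_ne_zero hpos
      have hlt := Nat.find_min hex' (m := k) (by omega)
      obtain ⟨w, hw, hww⟩ := Nat.find_spec hex'
      rw [hk, Nat.succ_eq_add_one, Function.iterate_succ_apply'] at hww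
      exact ⟨z^[k] x, (hzk k).1, (hzk k).2, hlt, w, hw, hww⟩
    · have hzx : z x ∈ A (s + e - 1) := h.zA _ x hx
      obtain ⟨w, hw, hww⟩ := hs.above (s + e - 1) (by omega) (z x) hzx
        (by rw [h.dz _ x hx, hdx, map_zero])
      rw [show s + e - 1 + 1 = s + e by ring] at hw
      refine ⟨x, hx, hdx, ?_, w, hw, hww⟩
      rintro ⟨v, hv, hvx⟩
      exact hxb v hv hvx
  have hyu := h.yB _ u hu
  have hdy := h.dy _ u hu
  obtain ⟨w, hw, hww⟩ := hex (y u - a) (sub_mem hyu (h.sub _ ha))
    (by rw [map_sub, hdy, hza, hdu, map_zero]; abel)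
  obtain ⟨a1, ha1, b1, hb1, rfl⟩ := h.ex _ w hw
  rw [show s + e + 1 - e = s + 1 by ring] at hb1
  have hdy1 := h.dy _ b1 hb1
  have hz1 : z b1 ∈ A (s + e) := by
    have := h.zA _ b1 hb1
    rwa [show s + 1 + e - 1 = s + e by ring] at this
  have hd1 : d a1 ∈ A (s + e) := by
    have := h.dA _ a1 ha1
    rwa [show s + e + 1 - 1 = s + e by ring] at this
  have hdb1 : d b1 ∈ A (s + e - e) := by
    have := h.dA _ b1 hb1
    rwa [show s + 1 - 1 = s + e - e by ring] at this
  have hu' : u ∈ A (s + e - e) := by rwa [show s + e - e = s by ring]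
  obtain ⟨-, h5⟩ := h.un (s + e) (d a1 + z b1 + a) (add_mem (add_mem hd1 hz1) ha) (-d b1 - u)
    (sub_mem (neg_mem hdb1) hu') (by
      have h6 : d (a1 + y b1) = d a1 + z b1 - y (d b1) := by rw [map_add, hdy1]; abel
      rw [h6] at hww
      have h7 : y (-d b1 - u) = -y (d b1) - y u := by rw [map_sub, map_neg]
      rw [h7]
      have h8 : d a1 + z b1 + a + (-y (d b1) - y u) = (d a1 + z b1 - y (d b1)) - (y u - a) := by
        abel
      rw [h8, hww, sub_self])
  apply hub
  refine ⟨-b1, neg_mem hb1, ?_⟩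
  rw [map_neg]
  exact sub_eq_zero.1 h5

end Pool.Agent.Helper67.QB
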