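import Pool.Agent.Helper67.QB.Euler
import Pool.Agent.Helper67.QB.Poles

/-!
PROJECT QB (MP_6cd5f1_al). The power series of Euler characteristics of a bigraded family
`C n p` (`n` degree, `p` weight): even and odd steps, product formula, exactness.
-/

set_option autoImplicit false

open Module PowerSeries

namespace Pool.Agent.Helper67.QB

variable {k : Type*} [Field k] {M : Type*} [AddCommGroup M] [Module k M]

/-- Bigraded families with finite dimensional pieces, for each weight only finitely many degrees,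
no negative degrees and weights. -/
structure Bi (C : ℤ → ℤ → Submodule k M) : Prop where
  bdd : ∀ p, Bdd (fun n => C n p)
  neg : ∀ n p, p < 0 → C n p = ⊥

/-- The power series of Euler characteristics. -/
noncomputable def hser (C : ℤ → ℤ → Submodule k M) : PowerSeries ℤ :=
  PowerSeries.mk fun p => chi fun n => C n p

theorem coeff_hser (C : ℤ → ℤ → Submodule k M) (p : ℕ) :
    coeff p (hser C) = chi fun n => C n p := by
  unfold hser
  rw [coeff_mk]

theorem Bi.chi_neg {C : ℤ → ℤ → Submodule k M} (h : Bi C) (p : ℤ) (hp : p < 0) :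
    chi (fun n => C n p) = 0 := by
  have : (fun n => C n p) = fun _ => (⊥ : Submodule k M) := by
    funext n
    exact h.neg n p hp
  rw [this, chi_bot]

theorem coeff_mul_hser {C : ℤ → ℤ → Submodule k M} (h : Bi C) (w p : ℕ) :
    coeff p ((1 - X ^ w) * hser C) = (chi fun n => C n p) - chi fun n => C n ((p : ℤ) - w) := by
  rw [sub_mul, one_mul, map_sub, coeff_hser, coeff_X_pow_mul']
  split_ifs with hw
  · rw [coeff_hser, Nat.cast_sub hw]
  · rw [h.chi_neg ((p : ℤ) - w) (by omega)]

/-- Even step. -/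
theorem hser_even (f : M →ₗ[k] M) {A B : ℤ → ℤ → Submodule k M} (hB : Bi B)
    (e : ℤ) (he : 0 ≤ e) (hev : Even e) (w : ℕ)
    (hfB : ∀ n p, ∀ x ∈ B n p, f x ∈ B (n - e) (p - w))
    (hker : ∀ n p x, x ∈ A n p ↔ x ∈ B n p ∧ f x = 0)
    (hsurj : ∀ n p, ∀ x ∈ B (n - e) (p - w), ∃ y ∈ B n p, f y = x) :
    hser A = (1 - X ^ w) * hser B := by
  ext p
  rw [coeff_mul_hser hB, coeff_hser, chi_even f (hB.bdd p) (hB.bdd (p - w)) e he hev
    (fun n => hfB n p) (fun n => hker n p) (fun n => hsurj n p)]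
  ring

/-- Odd step. -/
theorem hser_odd (y : M →ₗ[k] M) {A B : ℤ → ℤ → Submodule k M} (hA : Bi A)
    (e : ℤ) (he : 0 ≤ e) (hod : Odd e) (w : ℕ)
    (hsub : ∀ n p, A n p ≤ B n p) (hyB : ∀ n p, ∀ x ∈ A n p, y x ∈ B (n + e) (p + w))
    (hex : ∀ n p, ∀ x ∈ B n p, ∃ a ∈ A n p, ∃ b ∈ A (n - e) (p - w), x = a + y b)
    (hun : ∀ n p, ∀ a ∈ A n p, ∀ b ∈ A (n - e) (p - w), a + y b = 0 → a = 0 ∧ b = 0) :
    hser B = (1 - X ^ w) * hser A := by
  ext p
  rw [coeff_mul_hser hA, coeff_hser]
  refine chi_odd y (hA.bdd p) (hA.bdd (p - w)) e he hod (fun n => hsub n p) (fun n x hx => ?_)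
    (fun n => hex n p) (fun n => hun n p)
  have := hyB n _ x hx
  rwa [sub_add_cancel] at this

/-- Exactness in positive degrees. -/
theorem coeff_hser_of_exact (d : M →ₗ[k] M) {C : ℤ → ℤ → Submodule k M} (hC : Bi C)
    (hd : ∀ n p, ∀ x ∈ C n p, d x ∈ C (n - 1) p) (hdd : ∀ x, d (d x) = 0)
    (hex : ∀ n p, 1 ≤ n → ∀ z ∈ C n p, d z = 0 → ∃ w ∈ C (n + 1) p, d w = z) (p : ℕ) :
    coeff p (hser C) = (finrank k (C 0 p) : ℤ) - finrank k ((C 1 p).map d) := by
  rw [coeff_hser]
  exact chi_of_exact d (hC.bdd p) (fun n => hd n p) hdd (fun n hn => hex n p hn)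

/-- Product formula: `F T` the family of the generators in `T`. -/
theorem hser_prod {G : Type*} [DecidableEq G] (ev : G → Prop) [DecidablePred ev] (w : G → ℕ)
    (F : Finset G → ℤ → ℤ → Submodule k M)
    (hev : ∀ T g, g ∉ T → ev g → hser (F T) = (1 - X ^ w g) * hser (F (insert g T)))
    (hod : ∀ T g, g ∉ T → ¬ ev g → hser (F (insert g T)) = (1 - X ^ w g) * hser (F T))
    (T : Finset G) :
    hser (F T) * ∏ g ∈ T.filter ev, (1 - X ^ w g) =
      hser (F ∅) * ∏ g ∈ T.filter (fun g => ¬ ev g), (1 - X ^ w g) := by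
  induction T using Finset.induction_on with
  | empty => simp
  | insert g T hg ih =>
    rw [Finset.filter_insert, Finset.filter_insert]
    by_cases he : ev g
    · rw [if_pos he, if_neg (not_not.2 he), Finset.prod_insert (by simp [hg]), ← ih,
        hev T g hg he]
      ring
    · rw [if_neg he, if_pos he, Finset.prod_insert (by simp [hg]), hod T g hg he, mul_assoc, ih]
      ring

end Pool.Agent.Helper67.QB
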