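import Pool.Agent.Helper67.QB.Koszul

/-!
PROJECT QB, steps (3a), (3b).

(3a) If the homology of `A` vanishes in all degrees then so does that of `B`, for an odd step and
for an even step.
(3b) The Koszul complex on generators of an ideal which contains `R_n` for large `n` is exact in
large weights.
-/

set_option autoImplicit false

namespace Pool.Agent.Helper67.QB

open Finset

section acy

variable {M : Type*} [AddCommGroup M] {d : M →+ M} {A B : ℤ → AddSubgroup M}

/-- Odd step for acyclic complexes. -/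
theorem OddStep.acy {y z : M →+ M} {e : ℤ} (h : OddStep d A B y z e) (he : 1 ≤ e)
    (hA : ∀ n, Ex d A n) : ∀ n, Ex d B n := fun n =>
  h.above he (s := n - e - 1) (fun m _ => hA m) n (by omega)

/-- Even step for acyclic complexes. -/
theorem acy_even (hdd : ∀ x, d (d x) = 0) (p : M →+ M) (e : ℤ) (he : 1 ≤ e)
    (hdB : ∀ n, ∀ x ∈ B n, d x ∈ B (n - 1))
    (hpd : ∀ n, ∀ x ∈ B n, p (d x) = d (p x))
    (hpB : ∀ n, ∀ x ∈ B n, p x ∈ B (n - e))
    (hker : ∀ n x, x ∈ A n ↔ x ∈ B n ∧ p x = 0)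
    (hsurj : ∀ n, ∀ x ∈ B (n - e), ∃ y ∈ B n, p y = x)
    (hneg : ∀ n < 0, ∀ x ∈ B n, x = 0)
    (hA : ∀ n, Ex d A n) : ∀ n, Ex d B n := by
  have key : ∀ N : ℕ, ∀ n : ℤ, n < N → Ex d B n := by
    intro N
    induction N with
    | zero =>
      intro n hn x hx _
      exact ⟨0, zero_mem _, by rw [map_zero, hneg n (by simpa using hn) x hx]⟩
    | succ N ih =>
      intro n hn x hx hdx
      obtain ⟨w, hw, hwx⟩ := ih (n - e) (by push_cast at hn; omega) (p x) (hpB n x hx)
        (by rw [← hpd n x hx, hdx, map_zero])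
      obtain ⟨u, hu, huw⟩ := hsurj (n + 1) w (by
        rwa [show n + 1 - e = n - e + 1 by ring])
      have hdu : d u ∈ B n := by
        have := hdB _ u hu
        rwa [show n + 1 - 1 = n by ring] at this
      have hxa : x - d u ∈ A n := (hker n _).2 ⟨sub_mem hx hdu, by
        rw [map_sub, hpd _ u hu, huw, hwx, sub_self]⟩
      obtain ⟨v, hv, hvx⟩ := hA n _ hxa (by rw [map_sub, hdx, hdd, sub_zero])
      exact ⟨v + u, add_mem ((hker _ v).1 hv).1 hu, by rw [map_add, hvx, sub_add_cancel]⟩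
  intro n
  exact key (n.toNat + 1) n (by push_cast; omega)

end acy

section large

variable {k R M G : Type*} [CommRing k] [CommRing R] [Algebra k R] [AddCommGroup M] [Module R M]
  [DecidableEq G]
variable {d : M →+ M} {F : Finset G → ℤ → AddSubgroup M} {y : G → M →+ M} {c : G → R} {one : M}
  {U : Finset G}

/-- `F T n` as a submodule. -/
def Kos.subm (h : Kos d F y c one U) {T : Finset G} (hT : T ⊆ U) (n : ℤ) : Submodule R M :=
  { F T n with smul_mem' := fun r x hx => h.F_smul T hT n r x hx }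

theorem Kos.mem_subm (h : Kos d F y c one U) {T : Finset G} (hT : T ⊆ U) (n : ℤ) (x : M) :
    x ∈ h.subm hT n ↔ x ∈ F T n := Iff.rfl

theorem Kos.fg (h : Kos d F y c one U) (hy : ∀ g ∈ U, ∀ (r : R) (x : M), y g (r • x) = r • y g x)
    {T : Finset G} (hT : T ⊆ U) : ∀ n, (h.subm hT n).FG := by
  induction T using Finset.induction_on with
  | empty =>
    intro n
    by_cases hn : n = 0
    · subst hn
      refine ⟨{one}, ?_⟩
      apply le_antisymm
      · rw [Submodule.span_le]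
        intro x hx
        simp only [coe_singleton, Set.mem_singleton_iff] at hx
        subst hx
        exact h.one_mem
      · intro x hx
        obtain ⟨r, rfl⟩ := h.zero x hx
        exact Submodule.smul_mem _ _ (Submodule.subset_span (by simp))
    · convert Submodule.fg_bot
      rw [eq_bot_iff]
      intro x hx
      exact (Submodule.mem_bot R).2 (h.ne n hn x hx)
  | insert g T hgT ih =>
    intro n
    have hg : g ∈ U := hT (mem_insert_self g T)
    have hT' : T ⊆ U := fun a ha => hT (mem_insert_of_mem ha)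
    let Y : M →ₗ[R] M := { y g with map_smul' := fun r x => hy g hg r x }
    have heq : h.subm hT n = h.subm hT' n ⊔ (h.subm hT' (n - 1)).map Y := by
      apply le_antisymm
      · intro x hx
        obtain ⟨a, ha, b, hb, rfl⟩ := h.ex T hT' g hg hgT n x hx
        exact Submodule.add_mem_sup ha ⟨b, hb, rfl⟩
      · refine sup_le (fun x hx => h.sub T hT' g hg hgT n hx) ?_
        rintro _ ⟨b, hb, rfl⟩
        have := (h.odd hT' hg hgT).yB (n - 1) b hb
        rw [sub_add_cancel] at this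
        exact this
    rw [heq]
    exact (ih hT' n).sup ((ih hT' (n - 1)).map Y)

/-- Weight projections. -/
structure Wt (𝒜 : ℕ → Submodule k R) (W : ℕ → AddSubgroup M) (π : ℕ → M →+ M) : Prop where
  smul : ∀ i j, ∀ a ∈ 𝒜 i, ∀ x ∈ W j, a • x ∈ W (i + j)
  mem : ∀ p x, π p x ∈ W p
  eq : ∀ p, ∀ x ∈ W p, π p x = x
  ne : ∀ p q, p ≠ q → ∀ x ∈ W p, π q x = 0
  fin : ∀ x, ∃ N, x = ∑ p ∈ range N, π p x

variable {𝒜 : ℕ → Submodule k R} {W : ℕ → AddSubgroup M} {π : ℕ → M →+ M}

/-- The Koszul complex is exact in large weights. -/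
theorem Kos.exact_large [GradedAlgebra 𝒜] [IsNoetherianRing R] (h : Kos d F y c one U)
    (hW : Wt 𝒜 W π) (hy : ∀ g ∈ U, ∀ (r : R) (x : M), y g (r • x) = r • y g x)
    (hdπ : ∀ p x, d (π p x) = π p (d x))
    {T : Finset G} (hT : T ⊆ U) (hπF : ∀ p n, ∀ x ∈ F T n, π p x ∈ F T n) (n0 : ℕ)
    (hn0 : ∀ n, n0 ≤ n → ∀ a ∈ 𝒜 n, a ∈ Ideal.span (c '' (T : Set G))) (n : ℤ) :
    ∃ p0 : ℕ, ∀ p, p0 ≤ p → ∀ x ∈ F T n, x ∈ W p → d x = 0 →
      ∃ w ∈ F T (n + 1), w ∈ W p ∧ d w = x := by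
  classical
  set Z : Set M := {z | z ∈ F T n ∧ d z = 0 ∧ ∃ w, z ∈ W w} with hZ
  have hN : (Submodule.span R Z).FG := by
    have : IsNoetherian R (h.subm hT n) := isNoetherian_of_fg_of_noetherian _ (h.fg hy hT n)
    have hle : Submodule.span R Z ≤ h.subm hT n := Submodule.span_le.2 fun z hz => hz.1
    exact (isNoetherian_submodule.1 this) _ hle
  obtain ⟨s, hs, hsN⟩ := (Submodule.fg_span_iff_fg_span_finset_subset Z).1 hN
  have hw : ∀ z ∈ s, ∃ w, z ∈ W w := fun z hz => (hs hz).2.2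
  choose! w hw using hw
  refine ⟨s.sup w + n0, ?_⟩
  intro p hp x hx hxW hdx
  -- the weight `p` component of `a • z`, `z ∈ s`, is a boundary
  have key : ∀ z ∈ s, ∀ a : R, ∃ v ∈ F T (n + 1), d v = π p (a • z) := by
    intro z hz a
    induction a using DirectSum.Decomposition.inductionOn 𝒜 with
    | zero => exact ⟨0, zero_mem _, by rw [zero_smul, map_zero, map_zero]⟩
    | homogeneous a =>
      rename_i i
      by_cases hi : i + w z = p
      · have h1 : (a : R) • z ∈ W p := by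
          rw [← hi]
          exact hW.smul i (w z) a a.2 z (hw z hz)
        rw [hW.eq p _ h1]
        have h2 : w z ≤ s.sup w := Finset.le_sup hz
        exact h.kill hT (hn0 i (by omega) a a.2) (hs hz).1 (hs hz).2.1
      · refine ⟨0, zero_mem _, ?_⟩
        rw [map_zero, hW.ne (i + w z) p hi _ (hW.smul i (w z) a a.2 z (hw z hz))]
    | add a b ha hb =>
      obtain ⟨v, hv, hva⟩ := ha
      obtain ⟨v', hv', hvb⟩ := hb
      exact ⟨v + v', add_mem hv hv', by rw [map_add, hva, hvb, add_smul, map_add]⟩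
  have hxs : x ∈ Submodule.span R (s : Set M) := by
    rw [← hsN]
    exact Submodule.subset_span ⟨hx, hdx, p, hxW⟩
  have key2 : ∀ u ∈ Submodule.span R (s : Set M), ∃ v ∈ F T (n + 1), d v = π p u := by
    intro u hu
    rw [Submodule.mem_span_finset] at hu
    obtain ⟨f, -, rfl⟩ := hu
    choose! V hV hV2 using key
    refine ⟨∑ z ∈ s, V z (f z), AddSubgroup.sum_mem _ fun z hz => hV z hz _, ?_⟩
    rw [map_sum, map_sum]
    exact Finset.sum_congr rfl fun z hz => hV2 z hz _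
  obtain ⟨v, hv, hvx⟩ := key2 x hxs
  rw [hW.eq p x hxW] at hvx
  refine ⟨π p v, hπF p _ v hv, hW.mem p v, ?_⟩
  rw [hdπ, hvx, hW.eq p x hxW]

/-- The elements of `A n` whose components of weight `< q` vanish. -/
def cut (A : ℤ → AddSubgroup M) (π : ℕ → M →+ M) (q : ℕ) (n : ℤ) : AddSubgroup M where
  carrier := {x | x ∈ A n ∧ ∀ p < q, π p x = 0}
  zero_mem' := ⟨zero_mem _, fun p _ => map_zero _⟩
  add_mem' := fun ha hb => ⟨add_mem ha.1 hb.1, fun p hp => by
    rw [map_add, ha.2 p hp, hb.2 p hp, add_zero]⟩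
  neg_mem' := fun ha => ⟨neg_mem ha.1, fun p hp => by rw [map_neg, ha.2 p hp, neg_zero]⟩

theorem mem_cut (A : ℤ → AddSubgroup M) (π : ℕ → M →+ M) (q : ℕ) (n : ℤ) (x : M) :
    x ∈ cut A π q n ↔ x ∈ A n ∧ ∀ p < q, π p x = 0 := Iff.rfl

/-- The part of large weight of the Koszul complex is acyclic. -/
theorem Kos.acy_large [GradedAlgebra 𝒜] [IsNoetherianRing R] (h : Kos d F y c one U)
    (hW : Wt 𝒜 W π) (hy : ∀ g ∈ U, ∀ (r : R) (x : M), y g (r • x) = r • y g x)
    (hdπ : ∀ p x, d (π p x) = π p (d x))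
    {T : Finset G} (hT : T ⊆ U) (hπF : ∀ p n, ∀ x ∈ F T n, π p x ∈ F T n) (n0 : ℕ)
    (hn0 : ∀ n, n0 ≤ n → ∀ a ∈ 𝒜 n, a ∈ Ideal.span (c '' (T : Set G))) :
    ∃ p0 : ℕ, ∀ q, p0 ≤ q → ∀ n, Ex d (cut (F T) π q) n := by
  classical
  obtain ⟨b1, b2, b3, b4, b5⟩ := h.basic hT
  choose P hP using h.exact_large hW hy hdπ hT hπF n0 hn0
  refine ⟨(range (#T + 1)).sup fun i => P (i : ℤ), ?_⟩
  intro q hq n x hx hdx
  by_cases hn : n < 0
  · exact ⟨0, zero_mem _, by rw [map_zero, b1 n hn x hx.1]⟩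
  by_cases hn2 : (#T : ℤ) < n
  · exact ⟨0, zero_mem _, by rw [map_zero, b5 n hn2 x hx.1]⟩
  have hPn : P n ≤ q := by
    have h1 : P ((n.toNat : ℕ) : ℤ) ≤ (range (#T + 1)).sup fun i => P (i : ℤ) :=
      Finset.le_sup (f := fun i : ℕ => P (i : ℤ)) (by rw [mem_range]; omega)
    rw [Int.toNat_of_nonneg (by omega)] at h1
    omega
  obtain ⟨N, hN⟩ := hW.fin x
  have key : ∀ p, ∃ w ∈ F T (n + 1), w ∈ W p ∧ d w = π p x ∧ (p < q → w = 0) := by
    intro p
    by_cases hp : p < q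
    · exact ⟨0, zero_mem _, zero_mem _, by rw [map_zero, hx.2 p hp], fun _ => rfl⟩
    · obtain ⟨w, hw1, hw2, hw3⟩ := hP n p (by omega) (π p x) (hπF p n x hx.1) (hW.mem p x)
        (by rw [hdπ, hdx, map_zero])
      exact ⟨w, hw1, hw2, hw3, fun h => absurd h hp⟩
  choose V hV1 hV2 hV3 hV4 using key
  refine ⟨∑ p ∈ range N, V p, ⟨AddSubgroup.sum_mem _ fun p _ => hV1 p, ?_⟩, ?_⟩
  · intro p hp
    rw [map_sum]
    refine Finset.sum_eq_zero fun i _ => ?_
    by_cases hi : i = p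
    · subst hi
      rw [hV4 i hp, map_zero]
    · exact hW.ne i p hi _ (hV2 i)
  · rw [map_sum]
    conv_rhs => rw [hN]
    exact Finset.sum_congr rfl fun p _ => hV3 p

end large

end Pool.Agent.Helper67.QB
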