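import Mathlib
import Pool.Agent.Helper44.QB.Step

/-!
PROJECT QB (MP_6cd5f1_al), leaf (M2a). The complex of families indexed by the generators.

`sg g = -1` for odd, `1` for even generators;
`DW T c g'' = ∑ g', dd g'' (T g') * c g' + sg g'' • T.d (c g'')`.

(P0) `dd_d`: `dd g (T.d x) = ∑ g', dd g (T g') * dd g' x + sg g • T.d (dd g x)`;
(P1) `DW_DW`: `DW T (DW T c) = 0`;
(P2) `sig_d`: chain map property of `x ↦ ∑ g, W g g'' * dd g x`.
-/

set_option autoImplicit false

open scoped TensorProduct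
open Pool.Agent.Helper44.QA Pool.Agent.Helper44.QB

namespace Pool.Agent.Helper67.QB.Cx

universe u

section defs

variable {R : Type u} [CommRing R] {O : Type} [Fintype O] [LinearOrder O] {b : ℕ}

/-- The sign of a generator. -/
def sg (g : O ⊕ Fin b) : ℤˣ := Sum.elim (fun _ => -1) (fun _ => 1) g

/-- The differential of the families indexed by the generators. -/
noncomputable def DW (T : DD R O b) (c : O ⊕ Fin b → AA R O b) (g'' : O ⊕ Fin b) : AA R O b :=
  ∑ g', dd g'' (T g') * c g' + sg g'' • T.d (c g'')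

/-- The family obtained from an element. -/
noncomputable def sig (W : O ⊕ Fin b → O ⊕ Fin b → AA R O b) (x : AA R O b) (g'' : O ⊕ Fin b) :
    AA R O b :=
  ∑ g, W g g'' * dd g x

variable {T : DD R O b}

omit [Fintype O] [LinearOrder O] in
theorem sg_sq (g : O ⊕ Fin b) : sg g * sg g = 1 := Int.units_mul_self _

omit [Fintype O] [LinearOrder O] in
theorem map_units (f : AA R O b →ₗ[R] AA R O b) (v : ℤˣ) (x : AA R O b) :
    f (v • x) = v • f x := by
  rcases Int.units_eq_one_or v with rfl | rfl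
  · rw [one_smul, one_smul]
  · rw [Units.neg_smul, one_smul, Units.neg_smul, one_smul, map_neg]

omit [LinearOrder O] in
theorem d_sum (T : DD R O b) (x : AA R O b) : T.d x = ∑ g, T g * dd g x := by
  unfold DD.d
  rw [LinearMap.sum_apply]
  rfl

/-- (P0), termwise. -/
theorem dd_term (hT : T.Par) (g g' : O ⊕ Fin b) (x : AA R O b) :
    dd g (T g' * dd g' x) = dd g (T g') * dd g' x + sg g • (T g' * dd g' (dd g x)) := by
  cases g with
  | inl i =>
    change _ = _ + (-1 : ℤˣ) • _
    rw [Units.neg_smul, one_smul]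
    cases g' with
    | inl i' =>
      change con (LinearMap.proj i) (T (Sum.inl i') * con (LinearMap.proj i') x) =
        con (LinearMap.proj i) (T (Sum.inl i')) * con (LinearMap.proj i') x +
          -(T (Sum.inl i') * con (LinearMap.proj i') (con (LinearMap.proj i) x))
      rw [con_mul, (hT.ev i').eps, con_con, mul_neg]
    | inr j =>
      change con (LinearMap.proj i) (T (Sum.inr j) * par j x) =
        con (LinearMap.proj i) (T (Sum.inr j)) * par j x +
          -(T (Sum.inr j) * par j (con (LinearMap.proj i) x))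
      rw [con_mul, (hT.od j).eps, con_par, neg_mul]
  | inr j =>
    change _ = _ + (1 : ℤˣ) • _
    rw [one_smul]
    cases g' with
    | inl i' =>
      change par j (T (Sum.inl i') * con (LinearMap.proj i') x) =
        par j (T (Sum.inl i')) * con (LinearMap.proj i') x +
          T (Sum.inl i') * con (LinearMap.proj i') (par j x)
      rw [par_mul, con_par]
    | inr j' =>
      change par j (T (Sum.inr j') * par j' x) =
        par j (T (Sum.inr j')) * par j' x + T (Sum.inr j') * par j' (par j x)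
      rw [par_mul, par_par]

/-- (P0). -/
theorem dd_d (hT : T.Par) (g : O ⊕ Fin b) (x : AA R O b) :
    dd g (T.d x) = ∑ g', dd g (T g') * dd g' x + sg g • T.d (dd g x) := by
  rw [d_sum, map_sum, d_sum, Finset.smul_sum, ← Finset.sum_add_distrib]
  exact Finset.sum_congr rfl fun g' _ => dd_term hT g g' x

end defs

section

variable {k R : Type u} [Field k] [CommRing R] [Algebra k R] {O : Type} [Fintype O] [LinearOrder O]
  {b : ℕ} {T : DD R O b} {δ w : O ⊕ Fin b → ℤ} {𝒜 : ℕ → Submodule k R}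

theorem sg_eq (hT : Gr 𝒜 δ w T) (g : O ⊕ Fin b) : sg g = (δ g).negOnePow := by
  cases g with
  | inl i => exact (Int.negOnePow_odd _ (hT.odd i)).symm
  | inr j => exact (Int.negOnePow_even _ (hT.even j)).symm

theorem eps_of (hT : Gr 𝒜 δ w T) {S : Set (O ⊕ Fin b)} {n : ℤ} {φ : Mo O b → Submodule k R}
    {x : AA R O b} (hx : x ∈ Pc (Cd δ S n φ)) : eps R b (O → R) x = n.negOnePow • x := by
  rcases Int.even_or_odd n with h | h
  · rw [(evenEl_of hT.odd hT.even h hx).eps, Int.negOnePow_even _ h, one_smul]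
  · rw [(oddEl_of hT.odd hT.even h hx).eps, Int.negOnePow_odd _ h, Units.neg_smul, one_smul]

/-- The sign of `dd g'' (T g)`. -/
theorem eps_dd (hT : Gr 𝒜 δ w T) (g'' g : O ⊕ Fin b) :
    eps R b (O → R) (dd g'' (T g)) = -((sg g'' * sg g) • dd g'' (T g)) := by
  have h1 : dd g'' (T g) ∈ Pc (k := k) (Cd δ Set.univ (δ g - 1 - δ g'') fun _ => ⊤) :=
    dd_mem (fun _ _ => le_top) (hT.val g)
  rw [eps_of hT h1, sg_eq hT, sg_eq hT, Int.negOnePow_sub, Int.negOnePow_sub, Int.negOnePow_one,
    mul_comm (δ g'').negOnePow, mul_neg, mul_one, neg_mul, Units.neg_smul]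

/-- The sign of an element of degree `δ h - δ g''`. -/
theorem eps_W (hT : Gr 𝒜 δ w T) {h g'' : O ⊕ Fin b} {x : AA R O b}
    (hx : x ∈ Ft k δ Set.univ (δ h - δ g'')) : eps R b (O → R) x = (sg g'' * sg h) • x := by
  rw [eps_of hT hx, sg_eq hT, sg_eq hT, Int.negOnePow_sub, mul_comm]

/-- (P1). -/
theorem DW_DW (hT : Gr 𝒜 δ w T) (c : O ⊕ Fin b → AA R O b) : DW T (DW T c) = 0 := by
  funext g''
  have h0 : ∀ g, ∑ g', dd g'' (T g') * dd g' (T g) + sg g'' • T.d (dd g'' (T g)) = 0 := by
    intro g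
    rw [← dd_d hT.par, hT.sq, map_zero]
  have h1 : ∀ g, T.d (dd g'' (T g) * c g) =
      T.d (dd g'' (T g)) * c g - (sg g'' * sg g) • (dd g'' (T g) * T.d (c g)) := by
    intro g
    rw [d_mul hT.par, eps_dd hT, neg_mul, units_mul, ← sub_eq_add_neg]
  have h2 : sg g'' • T.d (DW T c g'') =
      ∑ g, (sg g'' • T.d (dd g'' (T g)) * c g - sg g • (dd g'' (T g) * T.d (c g))) := by
    unfold DW
    rw [map_add, map_sum, map_units, hT.dd_sq, smul_zero, add_zero, Finset.smul_sum]
    refine Finset.sum_congr rfl fun g _ => ?_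
    rw [h1, smul_sub, smul_smul, ← mul_assoc, sg_sq, one_mul, units_mul]
  have h3 : ∑ g', dd g'' (T g') * DW T c g' =
      ∑ g, (∑ g', dd g'' (T g') * dd g' (T g)) * c g +
        ∑ g, sg g • (dd g'' (T g) * T.d (c g)) := by
    unfold DW
    rw [← Finset.sum_congr rfl fun g' _ => (mul_add _ _ _).symm, Finset.sum_add_distrib]
    congr 1
    · rw [Finset.sum_congr rfl fun g' _ => Finset.mul_sum _ _ _, Finset.sum_comm]
      refine Finset.sum_congr rfl fun g _ => ?_
      rw [Finset.sum_mul]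
      exact Finset.sum_congr rfl fun g' _ => (mul_assoc _ _ _).symm
    · exact Finset.sum_congr rfl fun g' _ => mul_units _ _ _
  change ∑ g', dd g'' (T g') * DW T c g' + sg g'' • T.d (DW T c g'') = 0
  rw [h2, h3, Finset.sum_sub_distrib]
  have h4 : ∑ g, (∑ g', dd g'' (T g') * dd g' (T g)) * c g +
      ∑ g, sg g'' • T.d (dd g'' (T g)) * c g = 0 := by
    rw [← Finset.sum_add_distrib]
    refine Finset.sum_eq_zero fun g _ => ?_
    rw [← add_mul, h0, zero_mul]
  calc _ = (∑ g, (∑ g', dd g'' (T g') * dd g' (T g)) * c g +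
      ∑ g, sg g'' • T.d (dd g'' (T g)) * c g) := by abel
    _ = 0 := h4

/-- (P2). -/
theorem sig_d (hT : Gr 𝒜 δ w T) {W : O ⊕ Fin b → O ⊕ Fin b → AA R O b}
    (hW : ∀ h g', W h g' ∈ Ft k δ Set.univ (δ h - δ g')) {x : AA R O b}
    (hE : ∀ h, dd h x ≠ 0 → ∀ g'', ∑ g, W g g'' * dd g (T h) =
      ∑ g', dd g'' (T g') * W h g' + sg g'' • T.d (W h g'')) :
    sig W (T.d x) = DW T (sig W x) := by
  funext g''
  have h1 : sig W (T.d x) g'' =
      ∑ h, (∑ g, W g g'' * dd g (T h)) * dd h x + ∑ h, sg h • (W h g'' * T.d (dd h x)) := by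
    unfold sig
    rw [Finset.sum_congr rfl fun g _ => by rw [dd_d hT.par, mul_add, mul_units],
      Finset.sum_add_distrib]
    congr 1
    rw [Finset.sum_congr rfl fun g' _ => Finset.mul_sum _ _ _, Finset.sum_comm]
    refine Finset.sum_congr rfl fun g _ => ?_
    rw [Finset.sum_mul]
    exact Finset.sum_congr rfl fun g' _ => (mul_assoc _ _ _).symm
  have h2 : ∀ h, (∑ g, W g g'' * dd g (T h)) * dd h x =
      (∑ g', dd g'' (T g') * W h g' + sg g'' • T.d (W h g'')) * dd h x := by
    intro h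
    by_cases h0 : dd h x = 0
    · rw [h0, mul_zero, mul_zero]
    · rw [hE h h0]
  have h3 : DW T (sig W x) g'' = ∑ h, (∑ g', dd g'' (T g') * W h g') * dd h x +
      ∑ h, (sg g'' • T.d (W h g'') * dd h x + sg h • (W h g'' * T.d (dd h x))) := by
    unfold DW sig
    congr 1
    · rw [Finset.sum_congr rfl fun g' _ => Finset.mul_sum _ _ _, Finset.sum_comm]
      refine Finset.sum_congr rfl fun g _ => ?_
      rw [Finset.sum_mul]
      exact Finset.sum_congr rfl fun g' _ => (mul_assoc _ _ _).symm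
    · rw [map_sum, Finset.smul_sum]
      refine Finset.sum_congr rfl fun h _ => ?_
      rw [d_mul hT.par, eps_W hT (hW h g''), units_mul, smul_add, smul_smul, ← mul_assoc, sg_sq,
        one_mul, units_mul]
  rw [h1, h3, Finset.sum_congr rfl fun h _ => h2 h, Finset.sum_add_distrib, ← add_assoc]
  congr 1
  rw [← Finset.sum_add_distrib]
  refine Finset.sum_congr rfl fun h _ => ?_
  rw [add_mul]

end

end Pool.Agent.Helper67.QB.Cx
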