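import Pool.Agent.Helper67.QB.ChainGen
import Pool.Agent.Helper67.QB.Sorted

/-!
PROJECT QB, step (S) without the Cohen-Macaulay hypothesis: the chain argument for families of
subcomplexes indexed by finite sets of generators.
-/

set_option autoImplicit false

namespace Pool.Agent.Helper67.QB

open Finset

variable {M G : Type*} [AddCommGroup M] [DecidableEq G]

/-- The number argument for all generators. -/
theorem sorted_core_gen {d : M →+ M} (hdd : ∀ x, d (d x) = 0) (δ : G → ℤ) (Gen : Finset G)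
    (F C : Finset G → ℤ → AddSubgroup M)
    (hstep : ∀ S, Ini δ Gen S → ∀ g ∈ Gen, g ∉ S → 2 ≤ δ g → Ini δ Gen (insert g S) →
      (∀ g' ∈ S, δ g' ≤ δ g) → Step d (F S) (F (insert g S)) (C S) (C (insert g S)) (δ g))
    (hneg : ∀ S, Ini δ Gen S → ∀ n < 0, ∀ x ∈ C S n, x = 0)
    (h0 : ∀ n, Ex d (C (Gen.filter fun g => δ g ≤ 1)) n)
    (hCA : ∀ S, Ini δ Gen S → ∀ n, C S n ≤ F S n)
    (hH0 : ∀ S, Ini δ Gen S → ¬ Ex d (F S) 0)
    (hbdd : ∃ t, ∀ n, t < n → Ex d (F Gen) n)
    (μ s : ℤ) (hK : IsSup d (F (Gen.filter fun g => δ g ≤ 1)) s)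
    (hs : s ≤ μ + (#(Gen.filter fun g => 2 ≤ δ g ∧ Even (δ g)) : ℤ) -
        #(Gen.filter fun g => 2 ≤ δ g ∧ Odd (δ g))) :
    ∃ eps : ℤ, 0 ≤ eps ∧ IsSup d (F (Gen.filter fun g => δ g ≤ 2)) eps ∧
      ∀ v0 : ℤ, 2 ≤ v0 → (∀ g ∈ Gen, 3 ≤ δ g → v0 ≤ vv (δ g)) → (v0 - 1) * eps ≤ μ * v0 := by
  classical
  obtain ⟨l2, hl2, hl2s, -⟩ := exists_sorted δ (Gen.filter fun g => δ g = 2)
  obtain ⟨l3, hl3, hl3s, hl3o⟩ := exists_sorted δ (Gen.filter fun g => 3 ≤ δ g)
  have hm2 : ∀ g, g ∈ l2 ↔ g ∈ Gen ∧ δ g = 2 := by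
    intro g
    rw [← List.mem_toFinset, hl2s, mem_filter]
  have hm3 : ∀ g, g ∈ l3 ↔ g ∈ Gen ∧ 3 ≤ δ g := by
    intro g
    rw [← List.mem_toFinset, hl3s, mem_filter]
  set l : List G := l2 ++ l3 with hl
  set K0 : Finset G := Gen.filter fun g => δ g ≤ 1 with hK0
  have hml : ∀ g, g ∈ l ↔ g ∈ Gen ∧ 2 ≤ δ g := by
    intro g
    rw [hl, List.mem_append, hm2, hm3]
    constructor
    · rintro (⟨h1, h2⟩ | ⟨h1, h2⟩)
      · exact ⟨h1, h2.ge⟩
      · exact ⟨h1, by omega⟩
    · rintro ⟨h1, h2⟩
      rcases h2.eq_or_lt with h3 | h3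
      · exact Or.inl ⟨h1, h3.symm⟩
      · exact Or.inr ⟨h1, by omega⟩
  have hnd : l.Nodup := by
    rw [hl, List.nodup_append']
    refine ⟨hl2, hl3, ?_⟩
    intro g h2 h3
    rw [hm2] at h2
    rw [hm3] at h3
    omega
  have hord : l.Pairwise fun a b => δ a ≤ δ b := by
    rw [hl, List.pairwise_append]
    refine ⟨?_, hl3o, ?_⟩
    · refine List.Pairwise.imp_of_mem (R := fun _ _ => True) ?_ (List.pairwise_of_forall fun _ _ => trivial)
      intro a b ha hb _
      rw [((hm2 a).1 ha).2, ((hm2 b).1 hb).2]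
    · intro a ha b hb
      rw [((hm2 a).1 ha).2]
      have := ((hm3 b).1 hb).2
      omega
  set S : ℕ → Finset G := fun i => K0 ∪ (l.take i).toFinset with hS
  set e : ℕ → ℤ := fun i => if h : i < l.length then δ (l[i]) else 0 with he
  have hei : ∀ i (h : i < l.length), e i = δ (l[i]) := fun i h => dif_pos h
  have hmS : ∀ i g, g ∈ S i ↔ g ∈ K0 ∨ g ∈ l.take i := by
    intro i g
    rw [hS, mem_union, List.mem_toFinset]
  have hgt : ∀ i (h : i < l.length), ∀ g ∈ l.take i, δ g ≤ δ (l[i]) := by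
    intro i h g hg
    obtain ⟨j, hj, rfl⟩ := List.mem_take_iff_getElem.1 hg
    have hj' : j < i := by omega
    exact (List.pairwise_iff_getElem.1 hord) j i (by omega) h hj'
  have hini : ∀ i, Ini δ Gen (S i) := by
    intro i
    refine ⟨?_, ?_, ?_⟩
    · intro g hg
      rcases (hmS i g).1 hg with h1 | h1
      · exact (mem_filter.1 h1).1
      · exact ((hml g).1 (List.mem_of_mem_take h1)).1
    · intro g hg h1
      exact (hmS i g).2 (Or.inl (mem_filter.2 ⟨hg, h1⟩))
    · intro g hg g' hg' hlt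
      by_cases h1 : δ g' ≤ 1
      · exact (hmS i g').2 (Or.inl (mem_filter.2 ⟨hg', h1⟩))
      · refine (hmS i g').2 (Or.inr ?_)
        have h2 : g ∈ l.take i := by
          rcases (hmS i g).1 hg with h3 | h3
          · have := (mem_filter.1 h3).2
            omega
          · exact h3
        have h3 : g' ∈ l := (hml g').2 ⟨hg', by omega⟩
        obtain ⟨j, hj, rfl⟩ := List.mem_take_iff_getElem.1 h2
        obtain ⟨j', hj', rfl⟩ := List.getElem_of_mem h3
        have h4 : j' < j := by
          by_contra h5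
          have h6 : δ l[j] ≤ δ l[j'] := by
            rcases (not_lt.1 h5).eq_or_lt with h7 | h7
            · subst h7; exact le_rfl
            · exact (List.pairwise_iff_getElem.1 hord) j j' (by omega) hj' h7
          omega
        exact List.mem_take_iff_getElem.2 ⟨j', by omega, rfl⟩
  have hins : ∀ i (h : i < l.length), S (i + 1) = insert l[i] (S i) := by
    intro i h
    ext g
    rw [hmS, mem_insert, hmS, List.take_add_one, List.mem_append, List.getElem?_eq_getElem h]
    simp only [Option.toList_some, List.mem_singleton]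
    tauto
  have hnot : ∀ i (h : i < l.length), l[i] ∉ S i := by
    intro i h hmem
    have h1 : 2 ≤ δ l[i] := ((hml _).1 (List.getElem_mem h)).2
    rcases (hmS i _).1 hmem with h2 | h2
    · have := (mem_filter.1 h2).2
      omega
    · obtain ⟨j, hj, hjj⟩ := List.mem_take_iff_getElem.1 h2
      have := (hnd.getElem_inj_iff).1 hjj
      omega
  have hlenS : S l.length = Gen := by
    ext g
    rw [hmS, List.take_length, hml, hK0, mem_filter]
    constructor
    · rintro (h | h)
      · exact h.1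
      · exact h.1
    · intro h
      by_cases h1 : δ g ≤ 1
      · exact Or.inl ⟨h, h1⟩
      · exact Or.inr ⟨h, by omega⟩
  have hl2S : S l2.length = Gen.filter fun g => δ g ≤ 2 := by
    ext g
    rw [hmS, hl, List.take_left, hm2, hK0, mem_filter, mem_filter]
    constructor
    · rintro (h | h)
      · exact ⟨h.1, by omega⟩
      · exact ⟨h.1, by omega⟩
    · intro h
      by_cases h1 : δ g ≤ 1
      · exact Or.inl ⟨h.1, h1⟩
      · exact Or.inr ⟨h.1, by omega⟩
  have hS0 : S 0 = K0 := by
    ext g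
    rw [hmS, List.take_zero]
    simp
  have hlen : l2.length ≤ l.length := by rw [hl, List.length_append]; omega
  -- the sum of the signs
  have hsum : ∑ i ∈ range l.length, sg (e i) =
      #(Gen.filter fun g => 2 ≤ δ g ∧ Odd (δ g)) - (#(Gen.filter fun g => 2 ≤ δ g ∧ Even (δ g)) : ℤ)
      := by
    have h1 : ∑ i ∈ range l.length, sg (e i) = (l.map fun g => sg (δ g)).sum := by
      rw [Finset.sum_range, ← Fin.sum_univ_fun_getElem]
      refine Finset.sum_congr rfl fun i _ => ?_
      rw [hei i.1 i.2]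
    have h2 : l.toFinset = Gen.filter fun g => 2 ≤ δ g := by
      ext g
      rw [List.mem_toFinset, hml, mem_filter]
    rw [h1, ← List.sum_toFinset _ hnd, h2]
    unfold sg
    rw [Finset.sum_ite, Finset.sum_const, Finset.sum_const, Finset.filter_filter,
      Finset.filter_filter]
    simp only [nsmul_eq_mul, mul_one, mul_neg, Int.not_odd_iff_even]
    ring
  have hK' : IsSup d (F (S 0)) s := by rw [hS0]; exact hK
  have hcore := chain_core_gen (A := fun i => F (S i)) (C := fun i => C (S i)) (e := e)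
    (m := l.length) hdd l2.length hlen ?_ ?_ ?_ ?_ (fun i _ => hneg (S i) (hini i)) ?_
    (fun i _ => hCA (S i) (hini i)) (fun i _ => hH0 (S i) (hini i)) ?_ μ s hK' ?_
  · rw [hl2S] at hcore
    obtain ⟨eps, h1, h2, h3⟩ := hcore
    refine ⟨eps, h1, h2, fun v0 hv0 hv => h3 v0 hv0 fun i hi1 hi2 => ?_⟩
    rw [hei i hi2]
    have h4 : l[i] = l3[i - l2.length]'(by
        rw [hl, List.length_append] at hi2
        omega) := List.getElem_append_right hi1
    rw [h4]
    have h5 := (hm3 _).1 (List.getElem_mem (l := l3) (by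
        rw [hl, List.length_append] at hi2
        omega : i - l2.length < l3.length))
    exact hv _ h5.1 h5.2
  · intro i hi
    rw [hei i (by omega)]
    have : l[i] = l2[i] := List.getElem_append_left hi
    rw [this]
    exact ((hm2 _).1 (List.getElem_mem hi)).2
  · intro i hi1 hi2
    rw [hei i hi2]
    have h1 : l[i] = l3[i - l2.length]'(by
        rw [hl, List.length_append] at hi2
        omega) := List.getElem_append_right hi1
    rw [h1]
    exact ((hm3 _).1 (List.getElem_mem _)).2
  · intro i hi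
    rw [hei i (by omega), hei (i + 1) hi]
    exact (List.pairwise_iff_getElem.1 hord) i (i + 1) (by omega) hi (by omega)
  · intro i hi
    have h2 : 2 ≤ δ l[i] := ((hml _).1 (List.getElem_mem hi)).2
    have h3 := hstep (S i) (hini i) l[i] ((hml _).1 (List.getElem_mem hi)).1 (hnot i hi) h2
      (by rw [← hins i hi]; exact hini (i + 1)) (by
        intro g hg
        rcases (hmS i g).1 hg with h4 | h4
        · have := (mem_filter.1 h4).2
          omega
        · exact hgt i hi g h4)
    rw [hei i hi]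
    change Step d (F (S i)) (F (S (i + 1))) (C (S i)) (C (S (i + 1))) _
    rw [hins i hi]
    exact h3
  · intro n
    rw [hS0]
    exact h0 n
  · obtain ⟨t, ht⟩ := hbdd
    refine ⟨t, fun n hn => ?_⟩
    rw [hlenS]
    exact ht n hn
  · rw [hsum]
    linarith

end Pool.Agent.Helper67.QB
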