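import Pool.Agent.Helper67.QB.Core
import Pool.Agent.Helper67.QB.SortedGen

/-!
PROJECT QB: the core without the Cohen-Macaulay hypothesis.  `σ` are `D` generators of degree one
outside `S` whose differentials form a regular sequence, `#odd ≤ #even + D + μ`.  The top degree
`eps` of the homology of the part of `S` of degree `≤ 2` satisfies `(v0 - 1) eps ≤ μ v0`.
-/

set_option autoImplicit false
set_option linter.unusedSectionVars false

namespace Pool.Agent.Helper67.QB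

open Pool.Agent.Helper44.QB Pool.Agent.Helper44.QA Pool.Agent.Helper65.QB Finset

section kos

variable {R M G : Type*} [CommRing R] [AddCommGroup M] [Module R M] [DecidableEq G]
variable {d : M →+ M} {F : Finset G → ℤ → AddSubgroup M} {y : G → M →+ M} {c : G → R} {one : M}
  {U : Finset G}

theorem Kos.above_union (h : Kos d F y c one U) {T : Finset G} (hT : T ⊆ U) (V : Finset G)
    (hV : V ⊆ U) (hd : Disjoint T V) {t : ℤ} (ht : ∀ n, t < n → Ex d (F T) n) :
    ∀ n, t + #V < n → Ex d (F (V ∪ T)) n := by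
  induction V using Finset.induction_on with
  | empty => simpa using ht
  | insert g V hgV ih =>
    have hg : g ∈ U := hV (mem_insert_self g V)
    have hV' : V ⊆ U := fun a ha => hV (mem_insert_of_mem ha)
    have hgT : g ∉ T := fun hgT => disjoint_left.1 hd hgT (mem_insert_self g V)
    have hd' : Disjoint T V := disjoint_left.2 fun a ha hav =>
      disjoint_left.1 hd ha (mem_insert_of_mem hav)
    have ih' := ih hV' hd'
    have hVT : V ∪ T ⊆ U := union_subset hV' hT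
    have hgVT : g ∉ V ∪ T := by
      rw [mem_union]
      rintro (h1 | h1)
      · exact hgV h1
      · exact hgT h1
    intro n hn
    rw [insert_union]
    rw [card_insert_of_notMem hgV] at hn
    exact (h.odd hVT hg hgVT).above le_rfl ih' n (by push_cast at hn; linarith)

/-- The top degree is at most `#S - D`. -/
theorem Kos.isSup_le (h : Kos d F y c one U) (S : Finset G) (hS : S ⊆ U) {D : ℕ} (σ : Fin D → G)
    (hσ : ∀ j, σ j ∈ U) (hσi : Function.Injective σ) (hσS : ∀ j, σ j ∉ S)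
    (hreg : ∀ j, ∀ r : R, c (σ j) * r ∈ Ideal.span (c '' (σ '' {i | i < j})) →
      r ∈ Ideal.span (c '' (σ '' {i | i < j})))
    (hS1 : (1 : R) ∉ Ideal.span (c '' (S : Set G)))
    (hnil2 : ∀ j, ∃ N : ℕ, c (σ j) ^ N ∈ Ideal.span (c '' (S : Set G))) :
    ∃ s : ℤ, s ≤ #S - D ∧ IsSup d (F S) s := by
  set Θ : Finset G := firstT σ D with hΘ
  have hcoe : (Θ : Set G) = Set.range σ := coe_firstT_self σ
  have hmem : ∀ a ∈ Θ, ∃ i, σ i = a := fun a ha => by
    have : a ∈ (Θ : Set G) := ha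
    rwa [hcoe] at this
  have hΘU : Θ ⊆ U := by
    intro a ha
    obtain ⟨i, rfl⟩ := hmem a ha
    exact hσ i
  have hcard : #Θ = D := by
    rw [hΘ]
    unfold firstT
    rw [card_image_of_injective _ hσi, Finset.filter_true_of_mem (fun i _ => i.2), card_univ,
      Fintype.card_fin]
  have hdisj : Disjoint Θ S := by
    rw [disjoint_left]
    intro a ha haS
    obtain ⟨i, rfl⟩ := hmem a ha
    exact hσS i haS
  have h1 := h.above_union hΘU S hS hdisj (t := 0)
    (fun n hn => h.ex_first σ hσ hσi hreg D le_rfl n hn)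
  obtain ⟨b1, b2, b3, b4, b5⟩ := h.basic hS
  obtain ⟨s, -, -, hs⟩ := exists_isSup (d := d) (A := F S) (#S : ℤ) 0
    (fun n hn x hx _ => ⟨0, zero_mem _, by rw [map_zero, b5 n hn x hx]⟩) (h.not_ex_zero hS hS1)
  have h2 := h.isSup_union hS Θ hΘU hdisj.symm (by
    intro g hg
    obtain ⟨i, rfl⟩ := hmem g hg
    exact hnil2 i) hs
  rw [union_comm, hcard] at h2
  refine ⟨s, ?_, hs⟩
  by_contra hlt
  exact h2.at_ (h1 _ (by omega))

end kos

universe u

section

variable {k R : Type u} [Field k] [CommRing R] [Algebra k R]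
  {O : Type} [Fintype O] [LinearOrder O] {b : ℕ}
  {𝒜 : ℕ → Submodule k R} {δ w κ : O ⊕ Fin b → ℤ} {T : DD R O b}

/-- (S) for the ambient algebra, without the Cohen-Macaulay hypothesis. -/
theorem s_core_gen [CharZero k] [Algebra ℚ R] [GradedAlgebra 𝒜] [Nontrivial R]
    (hT : Gr 𝒜 δ w T)
    (hκ0 : ∀ g, 0 ≤ κ g) (hκ1 : ∀ g, δ g = 1 → κ g = w g) (hκ : ∀ g, δ g ≠ 1 → κ g = 0)
    (Gen : Finset (O ⊕ Fin b)) (hGen : Cl k δ T (Gen : Set _))
    (hN : ∀ g ∈ Gen, 2 ≤ δ g → Odd (δ g) → ∀ α, co (∅, α) (T g) ∈ AGe 𝒜 1) (q : ℤ)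
    (hq : ∀ n, Ex T.d.toAddMonoidHom (FQ 𝒜 δ κ q (Gen.filter fun g => δ g ≤ 1)) n)
    (hbdd : ∃ t, ∀ n, t < n → Ex T.d.toAddMonoidHom (FF k δ Gen) n) (μ s : ℤ)
    (hK : IsSup T.d.toAddMonoidHom (FF k δ (Gen.filter fun g => δ g ≤ 1)) s)
    (hs : s ≤ μ + (#(Gen.filter fun g => 2 ≤ δ g ∧ Even (δ g)) : ℤ) -
        #(Gen.filter fun g => 2 ≤ δ g ∧ Odd (δ g))) :
    ∃ eps : ℤ, 0 ≤ eps ∧
      IsSup T.d.toAddMonoidHom (FF k δ (Gen.filter fun g => δ g ≤ 2)) eps ∧
      ∀ v0 : ℤ, 2 ≤ v0 → (∀ g ∈ Gen, 3 ≤ δ g → v0 ≤ vv (δ g)) → (v0 - 1) * eps ≤ μ * v0 := by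
  refine sorted_core_gen (fun x => hT.dd_sq x) δ Gen (FF k δ) (FQ 𝒜 δ κ q) ?_ ?_ hq ?_ ?_ hbdd
    μ s hK hs
  · intro S hS g hg hgS h2 hini _
    refine step_inst hT hκ0 hκ1 hκ q hgS (cl_ini hT hGen hS) ?_ h2 (hN g hg h2)
    refine Ft_small hT.pos ?_ (hGen g hg)
    intro g' hg' h
    rcases mem_insert.1 (hini.2.2 g (mem_insert_self g S) g' hg' (by omega)) with h3 | h3
    · rw [h3] at h
      omega
    · exact h3
  · intro S _ n hn x hx
    exact Ft_neg hT.pos hn (Fq_le_Ft hx)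
  · intro S _ n x hx
    exact Fq_le_Ft hx
  · intro S _
    exact not_ex hT S

/-- The core without the Cohen-Macaulay hypothesis. -/
theorem core_gen [CharZero k] [Algebra ℚ R] [GradedAlgebra 𝒜] [IsNoetherianRing R] [Nontrivial R]
    (hT : Gr 𝒜 δ w T) (S : Finset (O ⊕ Fin b)) (hS : Cl k δ T (S : Set (O ⊕ Fin b)))
    {D : ℕ} (σ : Fin D → O ⊕ Fin b) (hσi : Function.Injective σ) (hσ1 : ∀ j, δ (σ j) = 1)
    (hσS : ∀ j, σ j ∉ S)
    (reg : ∀ j, ∀ r : R, co (∅, 0) (T (σ j)) * r ∈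
        Ideal.span ((fun j => co (∅, 0) (T (σ j))) '' {i | i < j}) →
      r ∈ Ideal.span ((fun j => co (∅, 0) (T (σ j))) '' {i | i < j}))
    (n1 : ∃ n0 : ℕ, ∀ n, n0 ≤ n → ∀ a ∈ 𝒜 n,
      a ∈ Ideal.span {r | ∃ g ∈ S, δ g = 1 ∧ r = co (∅, 0) (T g)})
    (pure : ∀ i, Sum.inl i ∈ S → 3 ≤ δ (Sum.inl i) →
      ∀ α, co (∅, α) (T (Sum.inl i)) ∈ AGe 𝒜 1)
    (bdd : ∃ t, ∀ n, t < n → Ex T.d.toAddMonoidHom
      (fun n => (Ft k δ (S : Set (O ⊕ Fin b)) n).toAddSubgroup) n)
    (μ : ℕ)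
    (card : #(S.filter fun g => Odd (δ g)) ≤ #(S.filter fun g => Even (δ g)) + D + μ) :
    ∃ eps : ℕ, IsSup T.d.toAddMonoidHom
        (fun n => (Ft k δ {g | g ∈ S ∧ δ g ≤ 2} n).toAddSubgroup) eps ∧
      ∀ v0 : ℤ, 2 ≤ v0 →
        (∀ g ∈ S, 3 ≤ δ g → (Odd (δ g) → v0 ≤ δ g) ∧ (Even (δ g) → v0 + 1 ≤ δ g)) →
        (v0 - 1) * eps ≤ μ * v0 := by
  classical
  set K : Finset (O ⊕ Fin b) := S.filter fun g => δ g ≤ 1 with hKdef
  have hK : ∀ g ∈ K, δ g = 1 := fun g hg => by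
    have h1 := (mem_filter.1 hg).2
    have h2 := hT.pos g
    omega
  have hKU : K ⊆ univ.filter fun g => δ g = 1 := fun g hg =>
    mem_filter.2 ⟨mem_univ g, hK g hg⟩
  have hset : {r | ∃ g ∈ S, δ g = 1 ∧ r = co (∅, 0) (T g)} =
      (fun g => co (∅, 0) (T g)) '' (K : Set (O ⊕ Fin b)) := by
    ext r
    constructor
    · rintro ⟨g, hg, h1, rfl⟩
      exact ⟨g, mem_coe.2 (mem_filter.2 ⟨hg, h1.le⟩), rfl⟩
    · rintro ⟨g, hg, rfl⟩
      exact ⟨g, (mem_filter.1 (mem_coe.1 hg)).1, hK g (mem_coe.1 hg), rfl⟩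
  obtain ⟨m1, hm1⟩ := n1
  rw [hset] at hm1
  have himg : ∀ j, ((fun j => co (∅, 0) (T (σ j))) '' {i | i < j}) =
      (fun g => co (∅, 0) (T g)) '' (σ '' {i | i < j}) := fun j => by
    rw [← Set.image_comp]; rfl
  -- powers of an element of positive weight
  have hpow : ∀ g, δ g = 1 → ∀ m : ℕ, ∀ I : Ideal R, (∀ n, m ≤ n → ∀ a ∈ 𝒜 n, a ∈ I) →
      ∃ N : ℕ, co (∅, 0) (T g) ^ N ∈ I := by
    intro g _ m I hI
    have h1 := (mem_Cd.1 (hT.val g (∅, 0))).2
    rw [lin_zero, sub_zero] at h1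
    have h2 := hT.wpos g
    obtain ⟨l, hl⟩ := Int.eq_ofNat_of_zero_le (zero_le_one.trans h2)
    rw [hl, AZ_nat] at h1
    refine ⟨m, hI (m • l) ?_ _ (SetLike.pow_mem_graded m h1)⟩
    have : 1 ≤ l := by omega
    rw [smul_eq_mul]
    nlinarith
  obtain ⟨q, hq⟩ := acy_K0 (κ := fun g => if δ g = 1 then w g else 0) hT
    (fun g hg => if_pos hg) K hK m1 hm1
  obtain ⟨s, hs, hKsup⟩ := (kos (k := k) hT).isSup_le K hKU σ
    (fun j => mem_filter.2 ⟨mem_univ _, hσ1 j⟩) hσi (fun j hj => hσS j (mem_filter.1 hj).1)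
    (fun j r hr => by
      have := reg j r
      rw [himg j] at this
      exact this hr)
    (fun h => Helper28.QB.one_notMem_AGe 𝒜 (span_le hT h))
    (fun j => hpow (σ j) (hσ1 j) m1 _ hm1)
  have hcard : ((#K : ℤ) - D) ≤ μ + (#(S.filter fun g => 2 ≤ δ g ∧ Even (δ g)) : ℤ) -
      #(S.filter fun g => 2 ≤ δ g ∧ Odd (δ g)) := by
    have h1 : S.filter (fun g => 2 ≤ δ g ∧ Even (δ g)) = S.filter fun g => Even (δ g) := by
      refine Finset.filter_congr fun g _ => ?_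
      constructor
      · exact fun h => h.2
      · intro h
        refine ⟨?_, h⟩
        have h3 := hT.pos g
        rcases h3.eq_or_lt with h4 | h4
        · rw [← h4] at h
          exact absurd h (by decide)
        · omega
    have h2 : #(S.filter fun g => Odd (δ g)) =
        #K + #(S.filter fun g => 2 ≤ δ g ∧ Odd (δ g)) := by
      rw [← card_union_of_disjoint]
      · congr 1
        ext g
        rw [mem_union, hKdef, mem_filter, mem_filter, mem_filter]
        constructor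
        · rintro ⟨h3, h4⟩
          by_cases h5 : δ g ≤ 1
          · exact Or.inl ⟨h3, h5⟩
          · exact Or.inr ⟨h3, by omega, h4⟩
        · rintro (⟨h3, h4⟩ | ⟨h3, h4, h5⟩)
          · refine ⟨h3, ?_⟩
            rw [hK g (mem_filter.2 ⟨h3, h4⟩)]
            decide
          · exact ⟨h3, h5⟩
      · rw [disjoint_left]
        intro g h3 h4
        have h5 := (mem_filter.1 h3).2
        have h6 := (mem_filter.1 h4).2.1
        omega
    rw [h1]
    omega
  obtain ⟨eps, heps, hsup, hv⟩ := s_core_gen (κ := fun g => if δ g = 1 then w g else 0) hT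
    (fun g => by
      split_ifs
      · exact zero_le_one.trans (hT.wpos g)
      · exact le_rfl)
    (fun g hg => if_pos hg) (fun g hg => if_neg hg) S hS
    (by
      intro g hg h2 hodd
      cases g with
      | inl i =>
        refine pure i hg ?_
        have : δ (Sum.inl i) ≠ 2 := by
          intro h3
          rw [h3] at hodd
          exact absurd hodd (by decide)
        omega
      | inr j =>
        exact absurd hodd (Int.not_odd_iff_even.2 (hT.even j)))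
    q hq bdd μ s hKsup (by linarith)
  have hcoe : ((S.filter fun g => δ g ≤ 2 : Finset (O ⊕ Fin b)) : Set (O ⊕ Fin b)) =
      {g | g ∈ S ∧ δ g ≤ 2} := by
    ext g
    simp
  refine ⟨eps.toNat, ?_, ?_⟩
  · rw [Int.toNat_of_nonneg heps]
    unfold FF at hsup
    rw [hcoe] at hsup
    exact hsup
  · intro v0 hv0 h
    rw [Int.toNat_of_nonneg heps]
    refine hv v0 hv0 fun g hg h3 => ?_
    obtain ⟨h4, h5⟩ := h g hg h3
    unfold vv
    split_ifs with h6
    · exact h4 h6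
    · have := h5 (Int.not_odd_iff_even.1 h6)
      omega

end

end Pool.Agent.Helper67.QB
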