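import Pool.Agent.Helper44.QB.Step
import Pool.Agent.Helper67.QB.Acyclic

/-!
PROJECT QB, leaf (K): the Koszul complex on the generators of degree one of the ambient algebra.
-/

set_option autoImplicit false
set_option linter.unusedSectionVars false

namespace Pool.Agent.Helper67.QB

open Pool.Agent.Helper44.QB Pool.Agent.Helper44.QA Finset

universe u

section

variable {k R : Type u} [Field k] [CommRing R] [Algebra k R]
  {O : Type} [Fintype O] [LinearOrder O] {b : ℕ}
  {𝒜 : ℕ → Submodule k R} {δ w : O ⊕ Fin b → ℤ} {T : DD R O b}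

/-- The families `Ft` as families of additive subgroups indexed by finite sets. -/
noncomputable def FF (k : Type u) {R : Type u} [Field k] [CommRing R] [Algebra k R]
    {O : Type} [Fintype O] [LinearOrder O] {b : ℕ} (δ : O ⊕ Fin b → ℤ)
    (S : Finset (O ⊕ Fin b)) (n : ℤ) : AddSubgroup (AA R O b) :=
  (Ft k δ (S : Set (O ⊕ Fin b)) n).toAddSubgroup

theorem mem_FF {S : Finset (O ⊕ Fin b)} {n : ℤ} {x : AA R O b} :
    x ∈ FF k δ S n ↔ x ∈ Ft k δ (S : Set (O ⊕ Fin b)) n := Iff.rfl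

theorem mem_Ft {S : Set (O ⊕ Fin b)} {n : ℤ} {x : AA R O b} :
    x ∈ Ft k δ S n ↔ ∀ m, co m x ≠ 0 → SuppIn S m ∧ lin δ m = n := by
  unfold Ft
  rw [mem_Pc]
  refine forall_congr' fun m => ?_
  rw [mem_Cd]
  simp

theorem Ft_smul {S : Set (O ⊕ Fin b)} {n : ℤ} (r : R) {x : AA R O b} (hx : x ∈ Ft k δ S n) :
    r • x ∈ Ft k δ S n := by
  rw [mem_Ft] at hx ⊢
  intro m hm
  rw [map_smul, smul_eq_mul] at hm
  exact hx m (right_ne_zero_of_mul hm)

theorem suppIn_zero (S : Set (O ⊕ Fin b)) : SuppIn S ((∅, 0) : Mo O b) :=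
  ⟨fun i hi => absurd hi (Finset.notMem_empty i), fun _ hj => absurd rfl hj⟩

theorem lin_zero (δ : O ⊕ Fin b → ℤ) : lin δ ((∅, 0) : Mo O b) = 0 := by unfold lin; simp

theorem co_one (m : Mo O b) : co (R := R) m 1 = if (∅, 0) = m then 1 else 0 := by
  rw [← mon_zero, co_mon]

theorem one_mem_Ft (S : Set (O ⊕ Fin b)) : (1 : AA R O b) ∈ Ft k δ S 0 := by
  rw [mem_Ft]
  intro m hm
  rw [co_one] at hm
  by_cases h : (∅, 0) = m
  · subst h
    exact ⟨suppIn_zero S, lin_zero δ⟩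
  · rw [if_neg h] at hm
    exact absurd rfl hm

/-- The elements of degree zero are the scalars. -/
theorem deg_zero (hδ : ∀ g, 1 ≤ δ g) {S : Set (O ⊕ Fin b)} {x : AA R O b}
    (hx : x ∈ Ft k δ S 0) : x = co (∅, 0) x • 1 := by
  apply co_ext
  intro m
  rw [map_smul, co_one, smul_eq_mul]
  by_cases h : (∅, 0) = m
  · rw [if_pos h, mul_one, ← h]
  · rw [if_neg h, mul_zero]
    by_contra h0
    exact h (lin_eq_zero hδ ((mem_Ft.1 hx m h0).2)).symm

theorem Ft_neg (hδ : ∀ g, 1 ≤ δ g) {S : Set (O ⊕ Fin b)} {n : ℤ} (hn : n < 0) {x : AA R O b}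
    (hx : x ∈ Ft k δ S n) : x = 0 := by
  apply co_ext
  intro m
  rw [map_zero]
  by_contra h0
  have h1 := (mem_Ft.1 hx m h0).2
  have h2 := lin_nonneg (fun g => zero_le_one.trans (hδ g)) m
  omega

/-- The value on a generator of degree one. -/
theorem val_one (hT : Gr 𝒜 δ w T) {g : O ⊕ Fin b} (hg : δ g = 1) :
    T g = co (∅, 0) (T g) • 1 := by
  refine deg_zero (k := k) (S := Set.univ) hT.pos ?_
  rw [mem_Ft]
  intro m hm
  have := (mem_Cd.1 (hT.val g m)).1 hm
  rw [hg, sub_self] at this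
  exact this

/-- Sets of generators of degree one are closed. -/
theorem cl_one (hT : Gr 𝒜 δ w T) {S : Set (O ⊕ Fin b)} (hS : ∀ g ∈ S, δ g = 1) :
    Cl k δ T S := by
  intro g hg
  rw [hS g hg, sub_self, val_one hT (hS g hg)]
  exact Ft_smul _ (one_mem_Ft S)

theorem co_nontrivial : co (R := R) ((∅, 0) : Mo O b) 1 = 1 := by
  rw [co_one, if_pos rfl]

/-- The step for one more odd generator. -/
theorem oddStep_FF [CharZero k] (hT : Gr 𝒜 δ w T) {S : Finset (O ⊕ Fin b)} {i : O}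
    (hg : Sum.inl i ∉ S) (hS : Cl k δ T S)
    (hTg : T (Sum.inl i) ∈ Ft k δ (S : Set (O ⊕ Fin b)) (δ (Sum.inl i) - 1)) :
    OddStep T.d.toAddMonoidHom (FF k δ S) (FF k δ (insert (Sum.inl i) S))
      (LinearMap.mulLeft R (gg (Sum.inl i))).toAddMonoidHom
      (LinearMap.mulLeft R (T (Sum.inl i))).toAddMonoidHom (δ (Sum.inl i)) := by
  have h := oddStep (k := k) hT (S := (S : Set (O ⊕ Fin b))) (i := i) (by simpa using hg)
    (φ := fun _ => ⊤) (fun _ _ => rfl) (fun n x hx => d_Ft hS hx) (by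
      intro n x hx
      have := mul_mem (φ := fun _ => (⊤ : Submodule k R)) (φ' := fun _ => ⊤) (φ'' := fun _ => ⊤)
        (fun _ _ _ _ _ _ _ => Submodule.mem_top) hTg hx
      rwa [show δ (Sum.inl i) - 1 + n = n + δ (Sum.inl i) - 1 by ring] at this)
  unfold FF Ft
  rw [Finset.coe_insert]
  exact h

theorem kos [CharZero k] (hT : Gr 𝒜 δ w T) :
    Kos T.d.toAddMonoidHom (FF k δ) (fun g => (LinearMap.mulLeft R (gg g)).toAddMonoidHom)
      (fun g => co (∅, 0) (T g)) (1 : AA R O b) (univ.filter fun g => δ g = 1) := by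
  have hU : ∀ S : Finset (O ⊕ Fin b), S ⊆ (univ.filter fun g => δ g = 1) → ∀ g ∈ S, δ g = 1 :=
    fun S hS g hg => (mem_filter.1 (hS hg)).2
  have hcl : ∀ S : Finset (O ⊕ Fin b), S ⊆ (univ.filter fun g => δ g = 1) →
      Cl k δ T (S : Set (O ⊕ Fin b)) := fun S hS => cl_one hT (hU S hS)
  have hinl : ∀ g : O ⊕ Fin b, δ g = 1 → ∃ i, g = Sum.inl i := by
    rintro (i | j) h
    · exact ⟨i, rfl⟩
    · have := hT.even j
      rw [h] at this
      exact absurd this (by decide)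
  have hodd : ∀ S : Finset (O ⊕ Fin b), S ⊆ (univ.filter fun g => δ g = 1) →
      ∀ g ∈ (univ.filter fun g : O ⊕ Fin b => δ g = 1), g ∉ S →
      OddStep T.d.toAddMonoidHom (FF k δ S) (FF k δ (insert g S))
        (LinearMap.mulLeft R (gg g)).toAddMonoidHom
        (LinearMap.mulLeft R (T g)).toAddMonoidHom 1 := by
    intro S hS g hg hgS
    have hg1 := (mem_filter.1 hg).2
    obtain ⟨i, rfl⟩ := hinl g hg1
    have hTg : T (Sum.inl i) ∈ Ft k δ (S : Set (O ⊕ Fin b)) (δ (Sum.inl i) - 1) := by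
      rw [hg1, sub_self, val_one hT hg1]
      exact Ft_smul _ (one_mem_Ft _)
    have := oddStep_FF hT hgS (hcl S hS) hTg
    rwa [hg1] at this
  refine ⟨?_, ?_, ?_, ?_, ?_, ?_, ?_, ?_, ?_, ?_, ?_, ?_⟩
  · intro r x
    exact map_smul T.d r x
  · intro S _ n r x hx
    exact Ft_smul r hx
  · intro S hS n x hx
    exact d_Ft (hcl S hS) hx
  · intro S hS g hg hgS
    exact (hodd S hS g hg hgS).sub
  · intro S hS g hg n x hx
    have h1 := gg_mul_mem (φ := fun _ => (⊤ : Submodule k R)) (φ' := fun _ => ⊤)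
      (T := (S : Set (O ⊕ Fin b))) (g := g) (by simpa using hg) (fun _ _ => le_rfl) hx
    rw [hU S hS g hg] at h1
    exact h1
  · intro g hg x
    have hg1 := (mem_filter.1 hg).2
    obtain ⟨i, rfl⟩ := hinl g hg1
    change T.d (gg (Sum.inl i) * x) = co (∅, 0) (T (Sum.inl i)) • x - gg (Sum.inl i) * T.d x
    rw [d_gg_inl_mul hT.par]
    nth_rewrite 1 [val_one hT hg1]
    rw [smul_mul_assoc, one_mul]
  · intro S hS g hg hgS
    exact (hodd S hS g hg hgS).ex
  · intro S hS g hg hgS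
    exact (hodd S hS g hg hgS).un
  · exact one_mem_Ft _
  · intro x hx
    exact ⟨_, deg_zero hT.pos hx⟩
  · intro n hn x hx
    apply co_ext
    intro m
    rw [map_zero]
    by_contra h0
    obtain ⟨h1, h2⟩ := mem_Ft.1 hx m h0
    have hm : m = (∅, 0) := by
      refine Prod.ext ?_ ?_
      · refine Finset.eq_empty_of_forall_notMem fun i hi => ?_
        simpa using h1.1 i hi
      · ext j
        by_contra h3
        simpa using h1.2 j h3
    rw [hm, lin_zero] at h2
    exact hn h2.symm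
  · intro r hr
    have := congrArg (co ((∅, 0) : Mo O b)) hr
    rwa [map_smul, co_nontrivial, smul_eq_mul, mul_one, map_zero] at this

end

end Pool.Agent.Helper67.QB
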