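import Mathlib

/-!
PROJECT QB (MP_6cd5f1_al). The number argument: `S i` = the top degree of the homology after the
first `i` generators of degree `≥ 3` (ordered by degree); an odd generator of degree `v` gives
`S (i+1) = S i + v`, an even generator of degree `v + 1` gives `S (i+1) = S i - v`. All `S i ≥ 0`
and `S 0 = #even - #odd` imply `S 0 = 0` and `S r = 0`.
-/

set_option autoImplicit false

namespace Pool.Agent.Helper67.QB

theorem abel_bound (S v σ : ℕ → ℤ) (r : ℕ) (hS : ∀ i, i ≤ r → 0 ≤ S i)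
    (hσ : ∀ i, i < r → S (i + 1) = S i + σ i * v i) (hv : ∀ i, i < r → 3 ≤ v i)
    (hmono : ∀ i, i + 1 < r → v i ≤ v (i + 1)) (V : ℤ) (hV : ∀ i, i < r → v i ≤ V) (hV0 : 3 ≤ V) :
    (S r : ℚ) / V - S 0 / 3 ≤ ∑ i ∈ Finset.range r, (σ i : ℚ) := by
  -- sum over `[i, r)` is at least `S r / V - S i / v i`
  have key : ∀ m : ℕ, ∀ i, i + m = r → i < r →
      (S r : ℚ) / V - S i / v i ≤ ∑ j ∈ Finset.Ico i r, (σ j : ℚ) := by
    intro m
    induction m with
    | zero => intro i hi hir; omega
    | succ m ih =>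
      intro i hi hir
      rw [Finset.sum_eq_sum_Ico_succ_bot hir]
      have hvi : (0 : ℚ) < v i := by exact_mod_cast lt_of_lt_of_le (by norm_num) (hv i hir)
      have hs : (S (i + 1) : ℚ) = S i + σ i * v i := by exact_mod_cast hσ i hir
      have h1 : (S (i + 1) : ℚ) / v i = S i / v i + σ i := by
        rw [hs]; field_simp
      by_cases hlast : i + 1 = r
      · subst hlast
        rw [Finset.Ico_self, Finset.sum_empty, add_zero]
        have h2 : (S (i + 1) : ℚ) / V ≤ S (i + 1) / v i := by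
          apply div_le_div_of_nonneg_left _ hvi
          · exact_mod_cast hV i hir
          · exact_mod_cast hS (i + 1) le_rfl
        linarith
      · have hlt : i + 1 < r := by omega
        have h3 := ih (i + 1) (by omega) hlt
        have h4 : (S (i + 1) : ℚ) / v (i + 1) ≤ S (i + 1) / v i := by
          apply div_le_div_of_nonneg_left _ hvi
          · exact_mod_cast hmono i hlt
          · exact_mod_cast hS (i + 1) hlt.le
        linarith
  rcases Nat.eq_zero_or_pos r with h0 | h0
  · subst h0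
    simp only [Finset.range_zero, Finset.sum_empty]
    have hS0 : (0 : ℚ) ≤ S 0 := by exact_mod_cast hS 0 le_rfl
    have : (S 0 : ℚ) / V ≤ S 0 / 3 := by
      apply div_le_div_of_nonneg_left hS0 (by norm_num)
      exact_mod_cast hV0
    linarith
  · have h1 := key r 0 (by omega) h0
    rw [← Finset.range_eq_Ico] at h1
    have h2 : (S 0 : ℚ) / v 0 ≤ S 0 / 3 := by
      apply div_le_div_of_nonneg_left _ (by norm_num)
      · exact_mod_cast hv 0 h0
      · exact_mod_cast hS 0 (by omega)
    linarith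

/-- The number argument. -/
theorem abel (S v σ : ℕ → ℤ) (r : ℕ) (hS : ∀ i, i ≤ r → 0 ≤ S i)
    (hσ : ∀ i, i < r → S (i + 1) = S i + σ i * v i) (hv : ∀ i, i < r → 3 ≤ v i)
    (hmono : ∀ i, i + 1 < r → v i ≤ v (i + 1))
    (h0 : S 0 = - ∑ i ∈ Finset.range r, σ i) : S 0 = 0 ∧ S r = 0 := by
  have hV : ∀ i, i < r → v i ≤ 3 + ∑ j ∈ Finset.range r, |v j| := by
    intro i hi
    have h1 := Finset.single_le_sum (f := fun j => |v j|) (fun j _ => abs_nonneg (v j))
      (Finset.mem_range.2 hi)
    have h2 := le_abs_self (v i)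
    linarith
  have hV0 : (3 : ℤ) ≤ 3 + ∑ j ∈ Finset.range r, |v j| := by
    have := Finset.sum_nonneg (s := Finset.range r) (f := fun j => |v j|)
      (fun j _ => abs_nonneg (v j))
    linarith
  have h := abel_bound S v σ r hS hσ hv hmono _ hV hV0
  have h0' : (S 0 : ℚ) = - ∑ i ∈ Finset.range r, (σ i : ℚ) := by
    rw [h0]; push_cast; rfl
  set V : ℤ := 3 + ∑ j ∈ Finset.range r, |v j| with hVdef
  have hVpos : (0 : ℚ) < V := by exact_mod_cast lt_of_lt_of_le (by norm_num) hV0
  have hS0 : (0 : ℚ) ≤ S 0 := by exact_mod_cast hS 0 (by omega)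
  have hSr : (0 : ℚ) ≤ S r := by exact_mod_cast hS r le_rfl
  have hq : (0 : ℚ) ≤ S r / V := div_nonneg hSr hVpos.le
  have h1 : (S 0 : ℚ) = 0 := by linarith
  have h2 : (S r : ℚ) / V = 0 := by linarith
  refine ⟨by exact_mod_cast h1, ?_⟩
  rw [div_eq_zero_iff] at h2
  rcases h2 with h2 | h2
  · exact_mod_cast h2
  · exact absurd h2 hVpos.ne'

end Pool.Agent.Helper67.QB
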