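import Pool.Agent.Helper67.QB.Acyclic
import Pool.Agent.Helper67.QB.Abel

/-!
PROJECT QB, steps (4) and (7): a chain of subcomplexes `A 0 ⊆ A 1 ⊆ ... ⊆ A m`, each one obtained
from the one before by adding a generator of degree `e i`, and a second chain `C i ≤ A i` (the
parts of large `K`-weight), `C 0` acyclic; the odd generators of the chain have differentials `z`
with `z ^ N (A i) ⊆ C i`.
`chain_isSup`: the top degrees `S i` of the homology of `A i` exist and satisfy
`S (i + 1) = S i + σ i * v i`.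
`chain_core`: if `S 0 = - ∑ σ i` then the top degree is zero for `A b` (`b` = the number of
generators of degree two) and for `A m`.
-/

set_option autoImplicit false

namespace Pool.Agent.Helper67.QB

open Finset

variable {M : Type*} [AddCommGroup M]

/-- The data of an even step. -/
structure EvenStep (d : M →+ M) (A B : ℤ → AddSubgroup M) (p : M →+ M) (e : ℤ) : Prop where
  dB : ∀ n, ∀ x ∈ B n, d x ∈ B (n - 1)
  pd : ∀ n, ∀ x ∈ B n, p (d x) = d (p x)
  pB : ∀ n, ∀ x ∈ B n, p x ∈ B (n - e)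
  ker : ∀ n x, x ∈ A n ↔ x ∈ B n ∧ p x = 0
  surj : ∀ n, ∀ x ∈ B (n - e), ∃ y ∈ B n, p y = x

theorem EvenStep.isSup {d : M →+ M} (hdd : ∀ x, d (d x) = 0) {A B : ℤ → AddSubgroup M}
    {p : M →+ M} {e : ℤ} (h : EvenStep d A B p e) (he : 2 ≤ e) {s : ℤ} (hs : IsSup d B s) :
    IsSup d A (s + e - 1) :=
  isSup_even hdd p e he h.dB h.pd h.pB h.ker h.surj hs

theorem EvenStep.acy {d : M →+ M} (hdd : ∀ x, d (d x) = 0) {A B : ℤ → AddSubgroup M}
    {p : M →+ M} {e : ℤ} (h : EvenStep d A B p e) (he : 1 ≤ e)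
    (hneg : ∀ n < 0, ∀ x ∈ B n, x = 0) (hA : ∀ n, Ex d A n) : ∀ n, Ex d B n :=
  acy_even hdd p e he h.dB h.pd h.pB h.ker h.surj hneg hA

/-- The sign of a generator of degree `e`. -/
def sg (e : ℤ) : ℤ := if Odd e then 1 else -1

/-- The odd number `e` or `e - 1`. -/
def vv (e : ℤ) : ℤ := if Odd e then e else e - 1

/-- One step of a chain, for the complexes `A` and their parts `C`. -/
def Step (d : M →+ M) (A B C D : ℤ → AddSubgroup M) (e : ℤ) : Prop :=
  (Odd e ∧ ∃ (y z : M →+ M) (N : ℕ), OddStep d A B y z e ∧ OddStep d C D y z e ∧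
    ∀ n, ∀ x ∈ A n, z^[N] x ∈ C (n + N * (e - 1))) ∨
  (Even e ∧ ∃ p : M →+ M, EvenStep d A B p e ∧ EvenStep d C D p e)

theorem OddStep.iterate {d : M →+ M} {A B : ℤ → AddSubgroup M} {y z : M →+ M} {e : ℤ}
    (h : OddStep d A B y z e) (N : ℕ) : ∀ n, ∀ x ∈ A n, z^[N] x ∈ A (n + N * (e - 1)) ∧
      d (z^[N] x) = z^[N] (d x) := by
  induction N with
  | zero => intro n x hx; simpa using hx
  | succ N ih =>
    intro n x hx
    obtain ⟨h1, h2⟩ := ih n x hx
    rw [Function.iterate_succ_apply', Function.iterate_succ_apply']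
    refine ⟨?_, by rw [h.dz _ _ h1, h2]⟩
    have := h.zA _ _ h1
    rwa [show n + N * (e - 1) + e - 1 = n + ((N + 1 : ℕ) : ℤ) * (e - 1) by push_cast; ring] at this

theorem iterate_zero (z : M →+ M) (N : ℕ) : z^[N] 0 = 0 := by
  induction N with
  | zero => rfl
  | succ N ih => rw [Function.iterate_succ_apply', ih, map_zero]

variable {d : M →+ M} {A C : ℕ → ℤ → AddSubgroup M} {e : ℕ → ℤ} {m : ℕ}

/-- The parts of large weight are acyclic. -/
theorem chain_acy (hdd : ∀ x, d (d x) = 0) (he : ∀ i < m, 2 ≤ e i)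
    (hstep : ∀ i < m, Step d (A i) (A (i + 1)) (C i) (C (i + 1)) (e i))
    (hneg : ∀ i ≤ m, ∀ n < 0, ∀ x ∈ C i n, x = 0) (h0 : ∀ n, Ex d (C 0) n) :
    ∀ i ≤ m, ∀ n, Ex d (C i) n := by
  intro i
  induction i with
  | zero => intro _; exact h0
  | succ i ih =>
    intro hi
    have hei := he i (by omega)
    rcases hstep i (by omega) with ⟨-, y, z, N, -, h2, -⟩ | ⟨-, p, -, h2⟩
    · exact h2.acy (by omega) (ih (by omega))
    · exact h2.acy hdd (by omega) (hneg (i + 1) hi) (ih (by omega))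

/-- The top degrees of the homology along a chain. -/
theorem chain_isSup (hdd : ∀ x, d (d x) = 0) (he : ∀ i < m, 2 ≤ e i)
    (hstep : ∀ i < m, Step d (A i) (A (i + 1)) (C i) (C (i + 1)) (e i))
    (hneg : ∀ i ≤ m, ∀ n < 0, ∀ x ∈ C i n, x = 0) (h0 : ∀ n, Ex d (C 0) n)
    (hCA : ∀ i ≤ m, ∀ n, C i n ≤ A i n) (hH0 : ∀ i ≤ m, ¬ Ex d (A i) 0)
    (hbdd : ∃ t, ∀ n, t < n → Ex d (A m) n) :
    ∃ S : ℕ → ℤ, (∀ i ≤ m, IsSup d (A i) (S i) ∧ 0 ≤ S i) ∧
      ∀ i < m, S (i + 1) = S i + sg (e i) * vv (e i) := by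
  have hacy := chain_acy hdd he hstep hneg h0
  have hb : ∀ i < m, (∃ t, ∀ n, t < n → Ex d (A (i + 1)) n) →
      ∃ t, ∀ n, t < n → Ex d (A i) n := by
    rintro i hi ⟨t, ht⟩
    have hei := he i hi
    rcases hstep i hi with ⟨-, y, z, N, h1, h2, h3⟩ | ⟨-, p, h1, h2⟩
    · refine ⟨t + N * (e i - 1), h1.bounded (by omega) ht N ?_⟩
      intro n x hx hdx
      obtain ⟨w, hw, hww⟩ := hacy i hi.le _ _ (h3 n x hx) (by
        rw [(h1.iterate N n x hx).2, hdx, iterate_zero])
      exact ⟨w, hCA i hi.le _ hw, hww⟩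
    · by_cases hcase : ∀ n, Ex d (A (i + 1)) n
      · exact absurd (hcase 0) (hH0 (i + 1) (by omega))
      · push Not at hcase
        obtain ⟨n0, hn0⟩ := hcase
        obtain ⟨s, -, -, hs⟩ := exists_isSup t n0 ht hn0
        exact ⟨_, (h1.isSup hdd hei hs).above⟩
  have hb' : ∀ j ≤ m, ∃ t, ∀ n, t < n → Ex d (A (m - j)) n := by
    intro j
    induction j with
    | zero => intro _; exact hbdd
    | succ j ih =>
      intro hj
      have := hb (m - (j + 1)) (by omega)
      rw [show m - (j + 1) + 1 = m - j by omega] at this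
      exact this (ih (by omega))
  have hex : ∀ i ≤ m, ∃ s, IsSup d (A i) s ∧ 0 ≤ s := by
    intro i hi
    obtain ⟨t, ht⟩ := hb' (m - i) (by omega)
    rw [show m - (m - i) = i by omega] at ht
    obtain ⟨s, hs0, -, hs⟩ := exists_isSup t 0 ht (hH0 i hi)
    exact ⟨s, hs, hs0⟩
  choose! S hS using hex
  refine ⟨S, hS, fun i hi => ?_⟩
  have hei := he i hi
  rcases hstep i hi with ⟨hod, y, z, N, h1, h2, h3⟩ | ⟨hev, p, h1, h2⟩
  · have h4 := h1.isSup (by omega) (hS i hi.le).1 N (by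
      intro h5
      rw [h5] at hei
      norm_num at hei)
    rw [(hS (i + 1) (by omega)).1.unique h4]
    unfold sg vv
    rw [if_pos hod, if_pos hod]
    ring
  · have h4 := h1.isSup hdd hei (hS (i + 1) (by omega)).1
    rw [(hS i hi.le).1.unique h4]
    have hnod : ¬ Odd (e i) := Int.not_odd_iff_even.2 hev
    unfold sg vv
    rw [if_neg hnod, if_neg hnod]
    ring

theorem vv_mono {a b : ℤ} (h : a ≤ b) : vv a ≤ vv b := by
  unfold vv
  split_ifs with h1 h2 h2
  · exact h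
  · have : a ≠ b := fun hab => h2 (hab ▸ h1)
    omega
  · omega
  · omega

theorem three_le_vv {a : ℤ} (h : 3 ≤ a) : 3 ≤ vv a := by
  unfold vv
  split_ifs with h1
  · exact h
  · have : a ≠ 3 := by
      rintro rfl
      exact h1 (by decide)
    omega

/-- The number argument for a chain. -/
theorem chain_core (hdd : ∀ x, d (d x) = 0) (b : ℕ) (hb : b ≤ m) (he2 : ∀ i < b, e i = 2)
    (he3 : ∀ i, b ≤ i → i < m → 3 ≤ e i) (hmono : ∀ i, i + 1 < m → e i ≤ e (i + 1))
    (hstep : ∀ i < m, Step d (A i) (A (i + 1)) (C i) (C (i + 1)) (e i))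
    (hneg : ∀ i ≤ m, ∀ n < 0, ∀ x ∈ C i n, x = 0) (h0 : ∀ n, Ex d (C 0) n)
    (hCA : ∀ i ≤ m, ∀ n, C i n ≤ A i n) (hH0 : ∀ i ≤ m, ¬ Ex d (A i) 0)
    (hbdd : ∃ t, ∀ n, t < n → Ex d (A m) n)
    (hK : IsSup d (A 0) (- ∑ i ∈ range m, sg (e i))) :
    IsSup d (A b) 0 ∧ IsSup d (A m) 0 := by
  have he : ∀ i < m, 2 ≤ e i := by
    intro i hi
    by_cases h : i < b
    · rw [he2 i h]
    · have := he3 i (not_lt.1 h) hi
      omega
  obtain ⟨S, hS, hS'⟩ := chain_isSup hdd he hstep hneg h0 hCA hH0 hbdd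
  have hS0 : S 0 = - ∑ i ∈ range m, sg (e i) := (hS 0 (by omega)).1.unique hK
  have hlow : ∀ j ≤ b, S j = - ∑ i ∈ Ico j m, sg (e i) := by
    intro j
    induction j with
    | zero => intro _; rw [hS0, range_eq_Ico]
    | succ j ih =>
      intro hj
      rw [hS' j (by omega), ih (by omega), sum_eq_sum_Ico_succ_bot (by omega : j < m),
        he2 j (by omega)]
      have : sg 2 = -1 := by unfold sg; rw [if_neg (by decide)]
      have h2 : vv 2 = 1 := by unfold vv; rw [if_neg (by decide)]; norm_num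
      rw [this, h2]
      ring
  have hab := abel (fun i => S (b + i)) (fun i => vv (e (b + i))) (fun i => sg (e (b + i)))
    (m - b) (fun i hi => (hS (b + i) (by omega)).2) (fun i hi => hS' (b + i) (by omega))
    (fun i hi => three_le_vv (he3 (b + i) (by omega) (by omega)))
    (fun i hi => vv_mono (hmono (b + i) (by omega))) (by
      simp only [add_zero]
      rw [hlow b le_rfl, sum_Ico_eq_sum_range])
  simp only [add_zero] at hab
  rw [show b + (m - b) = m by omega] at hab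
  refine ⟨?_, ?_⟩
  · have := (hS b hb).1
    rwa [hab.1] at this
  · have := (hS m le_rfl).1
    rwa [hab.2] at this

end Pool.Agent.Helper67.QB
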