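import Pool.Agent.Helper67.QB.Chain

/-!
PROJECT QB: the number argument for a chain when the first top degree is at most `μ` larger than in
the Cohen-Macaulay case.
-/

set_option autoImplicit false

namespace Pool.Agent.Helper67.QB

open Finset

/-- Abel summation with a general lower bound `v0`. -/
theorem abel_gen (S v σ : ℕ → ℤ) (r : ℕ) (v0 μ : ℤ) (hv0 : 2 ≤ v0)
    (hS : ∀ i, i ≤ r → 0 ≤ S i)
    (hσ : ∀ i, i < r → S (i + 1) = S i + σ i * v i) (hv : ∀ i, i < r → v0 ≤ v i)
    (hmono : ∀ i, i + 1 < r → v i ≤ v (i + 1))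
    (h0 : S 0 ≤ μ - ∑ i ∈ Finset.range r, σ i) : (v0 - 1) * S 0 ≤ μ * v0 := by
  have hv0q : (0 : ℚ) < v0 := by exact_mod_cast (by omega : (0 : ℤ) < v0)
  have hS0 : (0 : ℚ) ≤ S 0 := by exact_mod_cast hS 0 (by omega)
  -- sum over `[i, r)` is at least `- S i / v i`
  have key : ∀ m : ℕ, ∀ i, i + m = r → i < r →
      - ((S i : ℚ) / v i) ≤ ∑ j ∈ Finset.Ico i r, (σ j : ℚ) := by
    intro m
    induction m with
    | zero => intro i hi hir; omega
    | succ m ih =>
      intro i hi hir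
      rw [Finset.sum_eq_sum_Ico_succ_bot hir]
      have hvi : (0 : ℚ) < v i := by exact_mod_cast lt_of_lt_of_le (by omega) (hv i hir)
      have hs : (S (i + 1) : ℚ) = S i + σ i * v i := by exact_mod_cast hσ i hir
      have h1 : (S (i + 1) : ℚ) / v i = S i / v i + σ i := by
        rw [hs]; field_simp
      by_cases hlast : i + 1 = r
      · subst hlast
        rw [Finset.Ico_self, Finset.sum_empty, add_zero]
        have h2 : (0 : ℚ) ≤ (S (i + 1) : ℚ) / v i := by
          refine div_nonneg ?_ hvi.le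
          exact_mod_cast hS (i + 1) le_rfl
        linarith
      · have hlt : i + 1 < r := by omega
        have h3 := ih (i + 1) (by omega) hlt
        have h4 : (S (i + 1) : ℚ) / v (i + 1) ≤ S (i + 1) / v i := by
          apply div_le_div_of_nonneg_left _ hvi
          · exact_mod_cast hmono i hlt
          · exact_mod_cast hS (i + 1) hlt.le
        linarith
  have hsum : - ((S 0 : ℚ) / v0) ≤ ∑ i ∈ Finset.range r, (σ i : ℚ) := by
    rcases Nat.eq_zero_or_pos r with h | h
    · subst h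
      simp only [Finset.range_zero, Finset.sum_empty]
      have := div_nonneg hS0 hv0q.le
      linarith
    · have h1 := key r 0 (by omega) h
      rw [← Finset.range_eq_Ico] at h1
      have h2 : (S 0 : ℚ) / v 0 ≤ S 0 / v0 := by
        apply div_le_div_of_nonneg_left hS0 hv0q
        exact_mod_cast hv 0 h
      linarith
  have h0' : (S 0 : ℚ) ≤ μ - ∑ i ∈ Finset.range r, (σ i : ℚ) := by
    have := (Int.cast_le (R := ℚ)).2 h0
    push_cast at this
    exact this
  have h3 : (S 0 : ℚ) ≤ μ + S 0 / v0 := by linarith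
  have h4 : (S 0 : ℚ) * v0 ≤ μ * v0 + S 0 := by
    have := mul_le_mul_of_nonneg_right h3 hv0q.le
    rw [add_mul, div_mul_cancel₀ _ hv0q.ne'] at this
    exact this
  have h5 : ((v0 : ℚ) - 1) * S 0 ≤ μ * v0 := by linarith
  exact_mod_cast h5

variable {M : Type*} [AddCommGroup M]
variable {d : M →+ M} {A C : ℕ → ℤ → AddSubgroup M} {e : ℕ → ℤ} {m : ℕ}

/-- The number argument for a chain. -/
theorem chain_core_gen (hdd : ∀ x, d (d x) = 0) (b : ℕ) (hb : b ≤ m) (he2 : ∀ i < b, e i = 2)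
    (he3 : ∀ i, b ≤ i → i < m → 3 ≤ e i) (hmono : ∀ i, i + 1 < m → e i ≤ e (i + 1))
    (hstep : ∀ i < m, Step d (A i) (A (i + 1)) (C i) (C (i + 1)) (e i))
    (hneg : ∀ i ≤ m, ∀ n < 0, ∀ x ∈ C i n, x = 0) (h0 : ∀ n, Ex d (C 0) n)
    (hCA : ∀ i ≤ m, ∀ n, C i n ≤ A i n) (hH0 : ∀ i ≤ m, ¬ Ex d (A i) 0)
    (hbdd : ∃ t, ∀ n, t < n → Ex d (A m) n) (μ s : ℤ)
    (hK : IsSup d (A 0) s) (hs : s ≤ μ - ∑ i ∈ range m, sg (e i)) :
    ∃ eps : ℤ, 0 ≤ eps ∧ IsSup d (A b) eps ∧
      ∀ v0 : ℤ, 2 ≤ v0 → (∀ i, b ≤ i → i < m → v0 ≤ vv (e i)) → (v0 - 1) * eps ≤ μ * v0 := by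
  have he : ∀ i < m, 2 ≤ e i := by
    intro i hi
    by_cases h : i < b
    · rw [he2 i h]
    · have := he3 i (not_lt.1 h) hi
      omega
  obtain ⟨S, hS, hS'⟩ := chain_isSup hdd he hstep hneg h0 hCA hH0 hbdd
  have hS0 : S 0 ≤ μ - ∑ i ∈ range m, sg (e i) := by
    rw [(hS 0 (by omega)).1.unique hK]
    exact hs
  have hlow : ∀ j ≤ b, S j ≤ μ - ∑ i ∈ Ico j m, sg (e i) := by
    intro j
    induction j with
    | zero => intro _; rw [← range_eq_Ico]; exact hS0
    | succ j ih =>
      intro hj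
      have h1 := ih (by omega)
      rw [sum_eq_sum_Ico_succ_bot (by omega : j < m), he2 j (by omega)] at h1
      rw [hS' j (by omega), he2 j (by omega)]
      have h2 : sg 2 = -1 := by unfold sg; rw [if_neg (by decide)]
      have h3 : vv 2 = 1 := by unfold vv; rw [if_neg (by decide)]; norm_num
      rw [h2] at h1
      rw [h2, h3]
      linarith
  refine ⟨S b, (hS b hb).2, (hS b hb).1, ?_⟩
  intro v0 hv0 hv
  have hab := abel_gen (fun i => S (b + i)) (fun i => vv (e (b + i))) (fun i => sg (e (b + i)))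
    (m - b) v0 μ hv0 (fun i hi => (hS (b + i) (by omega)).2)
    (fun i hi => hS' (b + i) (by omega))
    (fun i hi => hv (b + i) (by omega) (by omega))
    (fun i hi => vv_mono (hmono (b + i) (by omega))) (by
      simp only [add_zero]
      have := hlow b le_rfl
      rwa [sum_Ico_eq_sum_range] at this)
  simpa using hab

end Pool.Agent.Helper67.QB
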