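import Pool.Agent.Helper67.QB.Koszul

/-!
PROJECT QB, step (5) for a regular sequence indexed by `Fin D`.
-/

set_option autoImplicit false

namespace Pool.Agent.Helper67.QB

open Finset

variable {R M G : Type*} [CommRing R] [AddCommGroup M] [Module R M] [DecidableEq G]
variable {d : M →+ M} {F : Finset G → ℤ → AddSubgroup M} {y : G → M →+ M} {c : G → R} {one : M}
  {U : Finset G}

/-- The first `j` elements. -/
def firstT {D : ℕ} (σ : Fin D → G) (j : ℕ) : Finset G :=
  (univ.filter fun i : Fin D => (i : ℕ) < j).image σ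

theorem coe_firstT {D : ℕ} (σ : Fin D → G) (j : Fin D) :
    ((firstT σ (j : ℕ) : Finset G) : Set G) = σ '' {i | i < j} := by
  unfold firstT
  rw [coe_image, coe_filter]
  congr 1
  ext i
  simp

theorem coe_firstT_self {D : ℕ} (σ : Fin D → G) :
    ((firstT σ D : Finset G) : Set G) = Set.range σ := by
  unfold firstT
  rw [coe_image, coe_filter]
  rw [← Set.image_univ]
  congr 1
  ext i
  simp

theorem firstT_zero {D : ℕ} (σ : Fin D → G) : firstT σ 0 = ∅ := by
  unfold firstT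
  rw [Finset.filter_false_of_mem (fun i _ => Nat.not_lt_zero _), image_empty]

theorem firstT_succ {D : ℕ} (σ : Fin D → G) (j : Fin D) :
    firstT σ ((j : ℕ) + 1) = insert (σ j) (firstT σ (j : ℕ)) := by
  unfold firstT
  ext g
  simp only [mem_image, mem_filter, mem_univ, true_and, mem_insert]
  constructor
  · rintro ⟨i, hi, rfl⟩
    rcases Nat.lt_succ_iff_lt_or_eq.1 hi with h | h
    · exact Or.inr ⟨i, h, rfl⟩
    · exact Or.inl (by rw [Fin.ext h])
  · rintro (rfl | ⟨i, hi, rfl⟩)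
    · exact ⟨j, Nat.lt_succ_self _, rfl⟩
    · exact ⟨i, Nat.lt_succ_of_lt hi, rfl⟩

theorem Kos.ex_first (h : Kos d F y c one U) {D : ℕ} (σ : Fin D → G)
    (hσ : ∀ j, σ j ∈ U) (hσi : Function.Injective σ)
    (hreg : ∀ j, ∀ r : R, c (σ j) * r ∈ Ideal.span (c '' (σ '' {i | i < j})) →
      r ∈ Ideal.span (c '' (σ '' {i | i < j}))) (j : ℕ) (hj : j ≤ D) :
    ∀ n, 0 < n → Ex d (F (firstT σ j)) n := by
  induction j with
  | zero =>
    intro n hn x hx _
    rw [firstT_zero] at hx ⊢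
    exact ⟨0, zero_mem _, by rw [map_zero, h.ne n (by omega) x hx]⟩
  | succ j ih =>
    have hTU : firstT σ j ⊆ U := by
      intro a ha
      obtain ⟨i, -, rfl⟩ := mem_image.1 ha
      exact hσ i
    have := firstT_succ σ ⟨j, by omega⟩
    simp only at this
    rw [this]
    refine h.isSup_regular hTU (ih (by omega)) (hσ _) ?_ ?_
    · intro hm
      obtain ⟨i, hi, hij⟩ := mem_image.1 hm
      have hi' := (mem_filter.1 hi).2
      have := hσi hij
      rw [this] at hi'
      simp at hi'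
    · have h1 := coe_firstT σ ⟨j, by omega⟩
      simp only at h1
      rw [h1]
      exact hreg ⟨j, by omega⟩

/-- Step (5). -/
theorem Kos.isSup_fin (h : Kos d F y c one U) (S : Finset G) (hS : S ⊆ U) {D : ℕ} (σ : Fin D → G)
    (hσ : ∀ j, σ j ∈ U) (hσi : Function.Injective σ) (hσS : ∀ j, σ j ∉ S)
    (hreg : ∀ j, ∀ r : R, c (σ j) * r ∈ Ideal.span (c '' (σ '' {i | i < j})) →
      r ∈ Ideal.span (c '' (σ '' {i | i < j})))
    (hS1 : (1 : R) ∉ Ideal.span (c '' (S : Set G)))
    (hθ1 : (1 : R) ∉ Ideal.span (c '' (Set.range σ)))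
    (hnil1 : ∀ g ∈ S, ∃ N : ℕ, c g ^ N ∈ Ideal.span (c '' (Set.range σ)))
    (hnil2 : ∀ j, ∃ N : ℕ, c (σ j) ^ N ∈ Ideal.span (c '' (S : Set G))) :
    IsSup d (F S) (#S - D) := by
  set Θ : Finset G := firstT σ D with hΘ
  have hcoe : (Θ : Set G) = Set.range σ := coe_firstT_self σ
  have hmem : ∀ a ∈ Θ, ∃ i, σ i = a := fun a ha => by
    have : a ∈ (Θ : Set G) := ha
    rwa [hcoe] at this
  have hΘU : Θ ⊆ U := by
    intro a ha
    obtain ⟨i, rfl⟩ := hmem a ha
    exact hσ i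
  have hcard : #Θ = D := by
    rw [hΘ]
    unfold firstT
    rw [card_image_of_injective _ hσi, Finset.filter_true_of_mem (fun i _ => i.2), card_univ,
      Fintype.card_fin]
  have hdisj : Disjoint Θ S := by
    rw [disjoint_left]
    intro a ha haS
    obtain ⟨i, rfl⟩ := hmem a ha
    exact hσS i haS
  rw [← hcoe] at hθ1 hnil1
  have h0 : IsSup d (F Θ) 0 := ⟨fun n hn => h.ex_first σ hσ hσi hreg D le_rfl n hn,
    h.not_ex_zero hΘU hθ1⟩
  have h1 := h.isSup_union hΘU S hS hdisj hnil1 h0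
  obtain ⟨b1, b2, b3, b4, b5⟩ := h.basic hS
  obtain ⟨s, -, -, hs⟩ := exists_isSup (d := d) (A := F S) (#S : ℤ) 0
    (fun n hn x hx _ => ⟨0, zero_mem _, by rw [map_zero, b5 n hn x hx]⟩) (h.not_ex_zero hS hS1)
  have h2 := h.isSup_union hS Θ hΘU hdisj.symm (by
    intro g hg
    obtain ⟨i, rfl⟩ := hmem g hg
    exact hnil2 i) hs
  rw [union_comm] at h2
  have h3 := h1.unique h2
  rw [hcard] at h3
  have h4 : s = #S - D := by omega
  rwa [← h4]

end Pool.Agent.Helper67.QB
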