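import Pool.Agent.Helper67.QB.SInst
import Pool.Agent.Helper67.QB.KosFin
import Pool.Agent.Helper65.QB.PrW

/-!
PROJECT QB: the core. `S` a closed finite set of generators of the ambient algebra, `σ` generators
of degree one outside `S` whose differentials form a regular sequence; the values on the
generators of degree one in `S` generate an ideal containing all elements of large degree, the same
for `σ`; the values on the odd generators of degree `≥ 3` in `S` are nilpotent modulo the maximal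
ideal; the homology of `S` is bounded; `#odd = #even + D`. Then the homology of `S` and of the part
of `S` of degree `≤ 2` vanishes in positive degrees.
-/

set_option autoImplicit false
set_option linter.unusedSectionVars false

namespace Pool.Agent.Helper67.QB

open Pool.Agent.Helper44.QB Pool.Agent.Helper44.QA Pool.Agent.Helper65.QB Finset

universe u

section

variable {k R : Type u} [Field k] [CommRing R] [Algebra k R]
  {O : Type} [Fintype O] [LinearOrder O] {b : ℕ}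
  {𝒜 : ℕ → Submodule k R} {δ w κ : O ⊕ Fin b → ℤ} {T : DD R O b}

theorem cmp_AGe [GradedAlgebra 𝒜] {p q : ℤ} (hpq : p < q) {r : R} (hr : r ∈ AGe 𝒜 q) :
    cmp 𝒜 p r = 0 := by
  unfold AGe at hr
  induction hr using Submodule.iSup_induction' with
  | mem s x hx =>
    by_cases h : q ≤ (s : ℤ)
    · rw [iSup_pos h] at hx
      refine cmp_ne 𝒜 (p := (s : ℤ)) (by omega) ?_
      rwa [AZ_nat]
    · rw [iSup_neg h, Submodule.mem_bot] at hx
      rw [hx, map_zero]
  | zero => exact map_zero _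
  | add x y _ _ hx hy => rw [map_add, hx, hy, add_zero]

theorem mem_AGe_of [GradedAlgebra 𝒜] (q : ℕ) (l : ℕ) {r : R}
    (h : ∀ p : ℕ, p < q → cmp 𝒜 ((p : ℤ) - l) r = 0) : r ∈ AGe 𝒜 ((q : ℤ) - l) := by
  obtain ⟨N, hN⟩ := cmp_sum 𝒜 r l
  rw [hN N le_rfl]
  refine Submodule.sum_mem _ fun p _ => ?_
  by_cases hp : p < q
  · rw [h p hp]
    exact Submodule.zero_mem _
  · exact AGe_mono 𝒜 (by omega) (AZ_le_AGe 𝒜 _ (cmp_mem 𝒜 _ _))

theorem lin_congr {S : Set (O ⊕ Fin b)} (h : ∀ g ∈ S, κ g = w g) {m : Mo O b}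
    (hm : SuppIn S m) : lin κ m = lin w m := by
  unfold lin
  congr 1
  · exact Finset.sum_congr rfl fun i hi => h _ (hm.1 i hi)
  · refine Finset.sum_congr rfl fun j _ => ?_
    by_cases hj : m.2 j = 0
    · rw [hj]; simp
    · rw [h _ (hm.2 j hj)]

/-- The part of `K`-weight `≥ q` is the part of weight `≥ q` if all generators have degree one. -/
theorem mem_Fq_iff [GradedAlgebra 𝒜] (hw : ∀ g, 0 ≤ w g) {S : Set (O ⊕ Fin b)}
    (h : ∀ g ∈ S, κ g = w g) {n : ℤ} {q : ℕ} {x : AA R O b} :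
    x ∈ Fq 𝒜 δ κ S n q ↔ x ∈ Ft k δ S n ∧ ∀ p < q, piW 𝒜 w p x = 0 := by
  constructor
  · intro hx
    have hx' : x ∈ Ft k δ S n := Fq_le_Ft hx
    refine ⟨hx', fun p hp => ?_⟩
    apply co_ext
    intro m
    rw [co_piW, map_zero]
    by_cases h0 : co m x = 0
    · rw [h0, map_zero]
    · have h1 := (mem_Cd.1 (hx m)).2
      rw [lin_congr h ((mem_Ft.1 hx' m h0).1)] at h1
      exact cmp_AGe (by omega) h1
  · rintro ⟨hx, h1⟩ m
    refine mem_Cd.2 ⟨(mem_Cd.1 (hx m)).1, ?_⟩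
    by_cases h0 : co m x = 0
    · rw [h0]; exact Submodule.zero_mem _
    · rw [lin_congr h ((mem_Ft.1 hx m h0).1)]
      obtain ⟨l, hl⟩ := Int.eq_ofNat_of_zero_le (lin_nonneg hw m)
      rw [hl]
      refine mem_AGe_of q l fun p hp => ?_
      have := congrArg (co m) (h1 p hp)
      rwa [co_piW, map_zero, hl] at this

/-- The part of large weight of the Koszul complex is acyclic. -/
theorem acy_K0 [CharZero k] [GradedAlgebra 𝒜] [IsNoetherianRing R] (hT : Gr 𝒜 δ w T)
    (hκ1 : ∀ g, δ g = 1 → κ g = w g) (K : Finset (O ⊕ Fin b)) (hK : ∀ g ∈ K, δ g = 1)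
    (n0 : ℕ) (hn0 : ∀ n, n0 ≤ n → ∀ a ∈ 𝒜 n,
      a ∈ Ideal.span ((fun g => co (∅, 0) (T g)) '' (K : Set (O ⊕ Fin b)))) :
    ∃ q : ℕ, ∀ n, Ex T.d.toAddMonoidHom (FQ 𝒜 δ κ q K) n := by
  have hw : ∀ g, 0 ≤ w g := fun g => zero_le_one.trans (hT.wpos g)
  have hKU : K ⊆ univ.filter fun g => δ g = 1 := fun g hg =>
    mem_filter.2 ⟨mem_univ g, hK g hg⟩
  obtain ⟨p0, hp0⟩ := (kos (k := k) hT).acy_large (wt_piW 𝒜 w hw)
    (fun g _ r x => mul_smul_comm r (gg g) x) (fun p x => d_piW hT p x) hKU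
    (fun p n x hx => piW_Ft' 𝒜 w p hx) n0 hn0
  refine ⟨p0, fun n => ?_⟩
  have heq : ∀ n, FQ 𝒜 δ κ p0 K n = cut (FF k δ K) (piW 𝒜 w) p0 n := by
    intro n
    ext x
    rw [mem_cut]
    exact mem_Fq_iff hw (fun g hg => hκ1 g (hK g hg))
  have := hp0 p0 le_rfl n
  unfold Ex at this ⊢
  rw [heq n, heq (n + 1)]
  exact this

/-- The core. -/
theorem core [CharZero k] [Algebra ℚ R] [GradedAlgebra 𝒜] [IsNoetherianRing R] [Nontrivial R]
    (hT : Gr 𝒜 δ w T) (S : Finset (O ⊕ Fin b)) (hS : Cl k δ T (S : Set (O ⊕ Fin b)))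
    {D : ℕ} (σ : Fin D → O ⊕ Fin b) (hσi : Function.Injective σ) (hσ1 : ∀ j, δ (σ j) = 1)
    (hσS : ∀ j, σ j ∉ S)
    (reg : ∀ j, ∀ r : R, co (∅, 0) (T (σ j)) * r ∈
        Ideal.span ((fun j => co (∅, 0) (T (σ j))) '' {i | i < j}) →
      r ∈ Ideal.span ((fun j => co (∅, 0) (T (σ j))) '' {i | i < j}))
    (n1 : ∃ n0 : ℕ, ∀ n, n0 ≤ n → ∀ a ∈ 𝒜 n,
      a ∈ Ideal.span {r | ∃ g ∈ S, δ g = 1 ∧ r = co (∅, 0) (T g)})
    (n2 : ∃ n0 : ℕ, ∀ n, n0 ≤ n → ∀ a ∈ 𝒜 n,
      a ∈ Ideal.span (Set.range fun j => co (∅, 0) (T (σ j))))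
    (pure : ∀ i, Sum.inl i ∈ S → 3 ≤ δ (Sum.inl i) →
      ∀ α, co (∅, α) (T (Sum.inl i)) ∈ AGe 𝒜 1)
    (bdd : ∃ t, ∀ n, t < n → Ex T.d.toAddMonoidHom
      (fun n => (Ft k δ (S : Set (O ⊕ Fin b)) n).toAddSubgroup) n)
    (card : #(S.filter fun g => Odd (δ g)) = #(S.filter fun g => Even (δ g)) + D) :
    IsSup T.d.toAddMonoidHom
        (fun n => (Ft k δ {g | g ∈ S ∧ δ g ≤ 2} n).toAddSubgroup) 0 ∧
      IsSup T.d.toAddMonoidHom
        (fun n => (Ft k δ (S : Set (O ⊕ Fin b)) n).toAddSubgroup) 0 := by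
  classical
  set K : Finset (O ⊕ Fin b) := S.filter fun g => δ g ≤ 1 with hKdef
  have hK : ∀ g ∈ K, δ g = 1 := fun g hg => by
    have h1 := (mem_filter.1 hg).2
    have h2 := hT.pos g
    omega
  have hKU : K ⊆ univ.filter fun g => δ g = 1 := fun g hg =>
    mem_filter.2 ⟨mem_univ g, hK g hg⟩
  have hset : {r | ∃ g ∈ S, δ g = 1 ∧ r = co (∅, 0) (T g)} =
      (fun g => co (∅, 0) (T g)) '' (K : Set (O ⊕ Fin b)) := by
    ext r
    constructor
    · rintro ⟨g, hg, h1, rfl⟩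
      exact ⟨g, mem_coe.2 (mem_filter.2 ⟨hg, h1.le⟩), rfl⟩
    · rintro ⟨g, hg, rfl⟩
      exact ⟨g, (mem_filter.1 (mem_coe.1 hg)).1, hK g (mem_coe.1 hg), rfl⟩
  obtain ⟨m1, hm1⟩ := n1
  obtain ⟨m2, hm2⟩ := n2
  rw [hset] at hm1
  have hrange : (Set.range fun j => co (∅, 0) (T (σ j))) =
      (fun g => co (∅, 0) (T g)) '' (Set.range σ) :=
    Set.range_comp (fun g => co (∅, 0) (T g)) σ
  rw [hrange] at hm2
  have himg : ∀ j, ((fun j => co (∅, 0) (T (σ j))) '' {i | i < j}) =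
      (fun g => co (∅, 0) (T g)) '' (σ '' {i | i < j}) := fun j => by
    rw [← Set.image_comp]; rfl
  -- powers of an element of positive weight
  have hpow : ∀ g, δ g = 1 → ∀ m : ℕ, ∀ I : Ideal R, (∀ n, m ≤ n → ∀ a ∈ 𝒜 n, a ∈ I) →
      ∃ N : ℕ, co (∅, 0) (T g) ^ N ∈ I := by
    intro g _ m I hI
    have h1 := (mem_Cd.1 (hT.val g (∅, 0))).2
    rw [lin_zero, sub_zero] at h1
    have h2 := hT.wpos g
    obtain ⟨l, hl⟩ := Int.eq_ofNat_of_zero_le (zero_le_one.trans h2)
    rw [hl, AZ_nat] at h1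
    refine ⟨m, hI (m • l) ?_ _ (SetLike.pow_mem_graded m h1)⟩
    have : 1 ≤ l := by omega
    rw [smul_eq_mul]
    nlinarith
  obtain ⟨q, hq⟩ := acy_K0 (κ := fun g => if δ g = 1 then w g else 0) hT
    (fun g hg => if_pos hg) K hK m1 hm1
  have hKsup := (kos (k := k) hT).isSup_fin K hKU σ
    (fun j => mem_filter.2 ⟨mem_univ _, hσ1 j⟩) hσi (fun j hj => hσS j (mem_filter.1 hj).1)
    (fun j r hr => by
      have := reg j r
      rw [himg j] at this
      exact this hr)
    (fun h => Helper28.QB.one_notMem_AGe 𝒜 (span_le hT h))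
    (fun h => Helper28.QB.one_notMem_AGe 𝒜 (span_le hT h))
    (fun g hg => hpow g (hK g hg) m2 _ hm2)
    (fun j => hpow (σ j) (hσ1 j) m1 _ hm1)
  have hcard : ((#K : ℤ) - D) = (#(S.filter fun g => 2 ≤ δ g ∧ Even (δ g)) : ℤ) -
      #(S.filter fun g => 2 ≤ δ g ∧ Odd (δ g)) := by
    have h1 : S.filter (fun g => 2 ≤ δ g ∧ Even (δ g)) = S.filter fun g => Even (δ g) := by
      refine Finset.filter_congr fun g _ => ?_
      constructor
      · exact fun h => h.2
      · intro h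
        refine ⟨?_, h⟩
        have h3 := hT.pos g
        rcases h3.eq_or_lt with h4 | h4
        · rw [← h4] at h
          exact absurd h (by decide)
        · omega
    have h2 : #(S.filter fun g => Odd (δ g)) =
        #K + #(S.filter fun g => 2 ≤ δ g ∧ Odd (δ g)) := by
      rw [← card_union_of_disjoint]
      · congr 1
        ext g
        rw [mem_union, hKdef, mem_filter, mem_filter, mem_filter]
        constructor
        · rintro ⟨h3, h4⟩
          by_cases h5 : δ g ≤ 1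
          · exact Or.inl ⟨h3, h5⟩
          · exact Or.inr ⟨h3, by omega, h4⟩
        · rintro (⟨h3, h4⟩ | ⟨h3, h4, h5⟩)
          · refine ⟨h3, ?_⟩
            rw [hK g (mem_filter.2 ⟨h3, h4⟩)]
            decide
          · exact ⟨h3, h5⟩
      · rw [disjoint_left]
        intro g h3 h4
        have h5 := (mem_filter.1 h3).2
        have h6 := (mem_filter.1 h4).2.1
        omega
    rw [h1]
    omega
  rw [hcard] at hKsup
  have hres := s_core (κ := fun g => if δ g = 1 then w g else 0) hT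
    (fun g => by
      split_ifs
      · exact zero_le_one.trans (hT.wpos g)
      · exact le_rfl)
    (fun g hg => if_pos hg) (fun g hg => if_neg hg) S hS
    (by
      intro g hg h2 hodd
      cases g with
      | inl i =>
        refine pure i hg ?_
        have : δ (Sum.inl i) ≠ 2 := by
          intro h3
          rw [h3] at hodd
          exact absurd hodd (by decide)
        omega
      | inr j =>
        exact absurd hodd (Int.not_odd_iff_even.2 (hT.even j)))
    q hq bdd hKsup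
  have hcoe : ((S.filter fun g => δ g ≤ 2 : Finset (O ⊕ Fin b)) : Set (O ⊕ Fin b)) =
      {g | g ∈ S ∧ δ g ≤ 2} := by
    ext g
    simp
  refine ⟨?_, hres.2⟩
  have h1 := hres.1
  unfold FF at h1
  rw [hcoe] at h1
  exact h1

end

end Pool.Agent.Helper67.QB
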