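import Mathlib

/-!
PROJECT QB (MP_6cd5f1_al). Euler characteristics of subcomplexes of an ambient complex.

`C : ℤ → Submodule k M` (degrees), finite dimensional pieces, finitely many nonzero pieces.
`chi C = ∑ (-1)^n dim C n`.
`chi_even`, `chi_odd`: even and odd step, `chi_of_exact`: `chi C = dim (C 0) - dim (d C 1)` if the
homology vanishes in positive degrees.
-/

set_option autoImplicit false

open Module

namespace Pool.Agent.Helper67.QB

variable {k : Type*} [Field k] {M : Type*} [AddCommGroup M] [Module k M]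

/-- Bounded family of finite dimensional subspaces. -/
structure Bdd (C : ℤ → Submodule k M) : Prop where
  fin : ∀ n, FiniteDimensional k (C n)
  supp : ∃ L : ℤ, ∀ n, C n ≠ ⊥ → 0 ≤ n ∧ n < L

/-- The Euler characteristic. -/
noncomputable def chi (C : ℤ → Submodule k M) : ℤ :=
  ∑ᶠ n : ℤ, (n.negOnePow : ℤ) * (finrank k (C n) : ℤ)

theorem Bdd.hfs {C : ℤ → Submodule k M} (h : Bdd C) :
    Function.HasFiniteSupport fun n : ℤ => (n.negOnePow : ℤ) * (finrank k (C n) : ℤ) := by
  obtain ⟨L, hL⟩ := h.supp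
  refine (Finset.Ico (0 : ℤ) L).finite_toSet.subset ?_
  intro n hn
  rw [Function.mem_support] at hn
  rw [Finset.coe_Ico, Set.mem_Ico]
  apply hL
  intro h
  apply hn
  rw [h, finrank_bot, Nat.cast_zero, mul_zero]

theorem chi_eq_sum (C : ℤ → Submodule k M) (L : ℤ) (hL : ∀ n, C n ≠ ⊥ → 0 ≤ n ∧ n < L) :
    chi C = ∑ n ∈ Finset.Ico 0 L, (n.negOnePow : ℤ) * (finrank k (C n) : ℤ) := by
  unfold chi
  apply finsum_eq_sum_of_support_subset
  intro n hn
  rw [Function.mem_support] at hn
  rw [Finset.coe_Ico, Set.mem_Ico]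
  apply hL
  intro h
  apply hn
  rw [h, finrank_bot, Nat.cast_zero, mul_zero]

theorem chi_bot : chi (fun _ : ℤ => (⊥ : Submodule k M)) = 0 := by
  unfold chi
  simp

/-- Shift of the family. -/
theorem chi_shift (C : ℤ → Submodule k M) (e : ℤ) :
    ∑ᶠ n : ℤ, (n.negOnePow : ℤ) * (finrank k (C (n - e)) : ℤ) = (e.negOnePow : ℤ) * chi C := by
  unfold chi
  rw [mul_finsum, ← finsum_comp_equiv (Equiv.subRight e)
    (f := fun n : ℤ => (e.negOnePow : ℤ) * ((n.negOnePow : ℤ) * (finrank k (C n) : ℤ)))]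
  apply finsum_congr
  intro n
  rw [Equiv.subRight_apply]
  have h : n.negOnePow = e.negOnePow * (n - e).negOnePow := by
    rw [← Int.negOnePow_add]; congr 1; ring
  rw [h, Units.val_mul, mul_assoc]

theorem Bdd.shift {C : ℤ → Submodule k M} (h : Bdd C) (e : ℤ) (he : 0 ≤ e) :
    Bdd (fun n => C (n - e)) := by
  refine ⟨fun n => h.fin _, ?_⟩
  obtain ⟨L, hL⟩ := h.supp
  refine ⟨L + e, fun n hn => ?_⟩
  obtain ⟨h1, h2⟩ := hL _ hn
  constructor <;> omega

/-- Additivity. -/
theorem chi_add {A B C : ℤ → Submodule k M} (hA : Bdd A) (hC : Bdd C) (e : ℤ) (he : 0 ≤ e)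
    (h : ∀ n, finrank k (B n) = finrank k (A n) + finrank k (C (n - e))) :
    chi B = chi A + (e.negOnePow : ℤ) * chi C := by
  rw [← chi_shift]
  unfold chi
  rw [← finsum_add_distrib hA.hfs (hC.shift e he).hfs]
  apply finsum_congr
  intro n
  rw [h, Nat.cast_add, mul_add]

/-- Dimensions of kernel and image of a map on a finite dimensional subspace. -/
theorem finrank_ker_add_image (p : M →ₗ[k] M) (A B C : Submodule k M) [FiniteDimensional k B]
    (hA : ∀ x, x ∈ A ↔ x ∈ B ∧ p x = 0) (hC : ∀ x, x ∈ C ↔ ∃ y ∈ B, p y = x) :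
    finrank k B = finrank k A + finrank k C := by
  have h := LinearMap.finrank_range_add_finrank_ker (p ∘ₗ B.subtype)
  have h1 : LinearMap.range (p ∘ₗ B.subtype) = C := by
    ext x
    rw [hC, LinearMap.mem_range]
    constructor
    · rintro ⟨y, rfl⟩
      exact ⟨y, y.2, rfl⟩
    · rintro ⟨y, hy, rfl⟩
      exact ⟨⟨y, hy⟩, rfl⟩
  have h2 : finrank k (LinearMap.ker (p ∘ₗ B.subtype)) = finrank k A := by
    have h3 : (LinearMap.ker (p ∘ₗ B.subtype)).map B.subtype = A := by
      ext x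
      rw [hA, Submodule.mem_map]
      constructor
      · rintro ⟨y, hy, rfl⟩
        exact ⟨y.2, hy⟩
      · rintro ⟨hx, hpx⟩
        exact ⟨⟨x, hx⟩, hpx, rfl⟩
    rw [← h3]
    exact (LinearEquiv.finrank_eq (Submodule.equivMapOfInjective _ B.injective_subtype _))
  rw [h1, h2] at h
  rw [← h, add_comm]

/-- Even step. -/
theorem chi_even (p : M →ₗ[k] M) {A B B' : ℤ → Submodule k M} (hB : Bdd B) (hB' : Bdd B')
    (e : ℤ) (he : 0 ≤ e) (hev : Even e)
    (hpB : ∀ n, ∀ x ∈ B n, p x ∈ B' (n - e))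
    (hker : ∀ n x, x ∈ A n ↔ x ∈ B n ∧ p x = 0)
    (hsurj : ∀ n, ∀ x ∈ B' (n - e), ∃ y ∈ B n, p y = x) :
    chi B = chi A + chi B' := by
  have hA : Bdd A := by
    refine ⟨fun n => ?_, ?_⟩
    · have := hB.fin n
      exact Submodule.finiteDimensional_of_le (fun x hx => ((hker n x).1 hx).1)
    · obtain ⟨L, hL⟩ := hB.supp
      refine ⟨L, fun n hn => hL n fun h0 => hn ?_⟩
      rw [eq_bot_iff]
      intro x hx
      have := ((hker n x).1 hx).1
      rwa [h0] at this
  have h := chi_add (B := B) hA hB' e he (fun n => by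
    have := hB.fin n
    refine finrank_ker_add_image p (A n) (B n) (B' (n - e)) (hker n) (fun x => ⟨hsurj n x, ?_⟩)
    rintro ⟨y, hy, rfl⟩
    exact hpB n y hy)
  rw [h, Int.negOnePow_even e hev, Units.val_one, one_mul]

/-- Odd step. -/
theorem chi_odd (y : M →ₗ[k] M) {A A' B : ℤ → Submodule k M} (hA : Bdd A) (hA' : Bdd A')
    (e : ℤ) (he : 0 ≤ e) (hod : Odd e)
    (hsub : ∀ n, A n ≤ B n) (hyB : ∀ n, ∀ x ∈ A' n, y x ∈ B (n + e))
    (hex : ∀ n, ∀ x ∈ B n, ∃ a ∈ A n, ∃ b ∈ A' (n - e), x = a + y b)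
    (hun : ∀ n, ∀ a ∈ A n, ∀ b ∈ A' (n - e), a + y b = 0 → a = 0 ∧ b = 0) :
    chi B = chi A - chi A' := by
  have h := chi_add (B := B) hA hA' e he (fun n => by
    have h1 := hA.fin n
    have h2 := hA'.fin (n - e)
    have hinj : Function.Injective (y ∘ₗ (A' (n - e)).subtype) := by
      rw [← LinearMap.ker_eq_bot, LinearMap.ker_eq_bot']
      rintro ⟨b, hb⟩ hyb
      have := (hun n 0 (zero_mem _) b hb (by rw [zero_add]; exact hyb)).2
      exact Subtype.ext this
    have h3 : finrank k (LinearMap.range (y ∘ₗ (A' (n - e)).subtype)) = finrank k (A' (n - e)) :=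
      LinearMap.finrank_range_of_inj hinj
    have h4 : A n ⊔ LinearMap.range (y ∘ₗ (A' (n - e)).subtype) = B n := by
      apply le_antisymm
      · refine sup_le (hsub n) ?_
        rintro _ ⟨b, rfl⟩
        have := hyB (n - e) b b.2
        rwa [sub_add_cancel] at this
      · intro x hx
        obtain ⟨a, ha, b, hb, rfl⟩ := hex n x hx
        exact Submodule.add_mem_sup ha ⟨⟨b, hb⟩, rfl⟩
    have h5 : A n ⊓ LinearMap.range (y ∘ₗ (A' (n - e)).subtype) = ⊥ := by
      rw [eq_bot_iff]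
      rintro x ⟨hx, ⟨b, hb⟩⟩
      rw [Submodule.mem_bot]
      have h6 := (hun n x hx (-b) (neg_mem b.2) (by
        rw [map_neg, ← hb]; simp)).1
      exact h6
    have h7 := Submodule.finrank_sup_add_finrank_inf_eq (A n)
      (LinearMap.range (y ∘ₗ (A' (n - e)).subtype))
    rw [h4, h5, finrank_bot, h3, add_zero] at h7
    exact h7)
  rw [h, Int.negOnePow_odd e hod, Units.val_neg, Units.val_one]
  ring

/-- If the homology vanishes in positive degrees, the Euler characteristic is `dim C 0 / d C 1`. -/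
theorem chi_of_exact (d : M →ₗ[k] M) {C : ℤ → Submodule k M} (hC : Bdd C)
    (hd : ∀ n, ∀ x ∈ C n, d x ∈ C (n - 1)) (hdd : ∀ x, d (d x) = 0)
    (hex : ∀ n, 1 ≤ n → ∀ z ∈ C n, d z = 0 → ∃ w ∈ C (n + 1), d w = z) :
    chi C = (finrank k (C 0) : ℤ) - finrank k ((C 1).map d) := by
  obtain ⟨L, hL⟩ := hC.supp
  -- dim C n = dim d C (n+1) + dim d C n for n ≥ 1
  have key : ∀ n, 1 ≤ n → finrank k (C n) =
      finrank k ((C (n + 1)).map d) + finrank k ((C n).map d) := by
    intro n hn
    have := hC.fin n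
    refine finrank_ker_add_image d _ _ _ (fun x => ?_) (fun x => Submodule.mem_map)
    rw [Submodule.mem_map]
    constructor
    · rintro ⟨w, hw, rfl⟩
      have := hd _ w hw
      rw [add_sub_cancel_right] at this
      exact ⟨this, hdd w⟩
    · rintro ⟨hx, hdx⟩
      exact hex n hn x hx hdx
  -- partial sums
  have hsum : ∀ m : ℕ, ∑ n ∈ Finset.Ico (0 : ℤ) (m + 1),
      (n.negOnePow : ℤ) * (finrank k (C n) : ℤ) = (finrank k (C 0) : ℤ)
        - finrank k ((C 1).map d) + ((m : ℤ).negOnePow : ℤ) * finrank k ((C (m + 1)).map d) := by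
    intro m
    induction m with
    | zero =>
      rw [Nat.cast_zero, zero_add]
      have : Finset.Ico (0 : ℤ) 1 = {0} := by
        ext x; rw [Finset.mem_Ico, Finset.mem_singleton]; omega
      rw [this, Finset.sum_singleton]
      simp
    | succ m ih =>
      have h1 : Finset.Ico (0 : ℤ) (((m + 1 : ℕ) : ℤ) + 1) =
          insert ((m : ℤ) + 1) (Finset.Ico (0 : ℤ) (m + 1)) := by
        ext x
        rw [Finset.mem_insert, Finset.mem_Ico, Finset.mem_Ico]
        push_cast
        omega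
      rw [h1, Finset.sum_insert (by rw [Finset.mem_Ico]; omega), ih, key _ (by omega)]
      push_cast
      rw [Int.negOnePow_succ, Units.val_neg]
      ring
  rw [chi_eq_sum C (L.toNat + 1) (fun n hn => by have := hL n hn; omega), hsum]
  have h0 : (C ((L.toNat : ℤ) + 1)).map d = ⊥ := by
    have : C ((L.toNat : ℤ) + 1) = ⊥ := by
      by_contra h
      have := hL _ h
      omega
    rw [this, Submodule.map_bot]
  rw [h0, finrank_bot, Nat.cast_zero, mul_zero, add_zero]

end Pool.Agent.Helper67.QB
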