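import Pool.Agent.Helper67.QB.Sup

/-!
PROJECT QB, step (5): the top degree of the homology of a Koszul complex `R[x, τ]`.

`F T n`, `T` a finite set of generators of degree one with `d y_g = c g`: the part of degree `n`
of the subalgebra generated by `T` (over `R`).  `S`, `Θ` disjoint sets of such generators.
If the `c g`, `g ∈ Θ`, form a regular sequence and every `c g` is nilpotent modulo the ideal
generated by the others then `sup (F S) = #S - #Θ`.
-/

set_option autoImplicit false

namespace Pool.Agent.Helper67.QB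

open Finset

variable {R M G : Type*} [CommRing R] [AddCommGroup M] [Module R M] [DecidableEq G]

/-- The subcomplexes generated by sets of generators of degree one with `d y_g = c g`. -/
structure Kos (d : M →+ M) (F : Finset G → ℤ → AddSubgroup M) (y : G → M →+ M) (c : G → R)
    (one : M) (U : Finset G) : Prop where
  d_smul : ∀ (r : R) (x : M), d (r • x) = r • d x
  F_smul : ∀ T ⊆ U, ∀ n, ∀ (r : R), ∀ x ∈ F T n, r • x ∈ F T n
  dF : ∀ T ⊆ U, ∀ n, ∀ x ∈ F T n, d x ∈ F T (n - 1)
  sub : ∀ T ⊆ U, ∀ g ∈ U, g ∉ T → ∀ n, F T n ≤ F (insert g T) n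
  yF : ∀ T ⊆ U, ∀ g ∈ T, ∀ n, ∀ x ∈ F T n, y g x ∈ F T (n + 1)
  dy : ∀ g ∈ U, ∀ x, d (y g x) = c g • x - y g (d x)
  ex : ∀ T ⊆ U, ∀ g ∈ U, g ∉ T → ∀ n, ∀ x ∈ F (insert g T) n,
    ∃ a ∈ F T n, ∃ b ∈ F T (n - 1), x = a + y g b
  un : ∀ T ⊆ U, ∀ g ∈ U, g ∉ T → ∀ n, ∀ a ∈ F T n, ∀ b ∈ F T (n - 1), a + y g b = 0 →
    a = 0 ∧ b = 0
  one_mem : one ∈ F ∅ 0
  zero : ∀ x ∈ F ∅ 0, ∃ r : R, x = r • one
  ne : ∀ n, n ≠ 0 → ∀ x ∈ F ∅ n, x = 0
  inj : ∀ r : R, r • one = 0 → r = 0

variable {d : M →+ M} {F : Finset G → ℤ → AddSubgroup M} {y : G → M →+ M} {c : G → R} {one : M}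
  {U : Finset G}

/-- Scalar multiplication as an additive map. -/
def smulHom (R : Type*) {M : Type*} [CommRing R] [AddCommGroup M] [Module R M] (r : R) : M →+ M :=
  DistribSMul.toAddMonoidHom M r

@[simp] theorem smulHom_apply (r : R) (x : M) : smulHom R r x = r • x := rfl

theorem smulHom_iterate (r : R) (N : ℕ) (x : M) : (smulHom R r)^[N] x = r ^ N • x := by
  induction N with
  | zero => simp
  | succ N ih => rw [Function.iterate_succ_apply', ih, smulHom_apply, smul_smul, pow_succ']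

theorem Kos.odd (h : Kos d F y c one U) {T : Finset G} (hT : T ⊆ U) {g : G} (hg : g ∈ U)
    (hgT : g ∉ T) : OddStep d (F T) (F (insert g T)) (y g) (smulHom R (c g)) 1 where
  dA := h.dF T hT
  sub := h.sub T hT g hg hgT
  yB n x hx := h.yF _ (insert_subset hg hT) g (mem_insert_self g T) n x
    (h.sub T hT g hg hgT n hx)
  zA n x hx := by
    rw [smulHom_apply, show n + 1 - 1 = n by ring]
    exact h.F_smul T hT n _ x hx
  dy n x _ := by rw [h.dy g hg x, smulHom_apply]
  dz n x _ := by rw [smulHom_apply, smulHom_apply, h.d_smul]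
  ex := h.ex T hT g hg hgT
  un := h.un T hT g hg hgT

/-- No elements of negative degree; the elements of degree zero are the scalars; the boundaries
of degree zero are the elements of the ideal generated by the `c g`; no elements of degree larger
than the number of generators. -/
theorem Kos.basic (h : Kos d F y c one U) {T : Finset G} (hT : T ⊆ U) :
    (∀ n < 0, ∀ x ∈ F T n, x = 0) ∧ (∀ x ∈ F T 0, ∃ r : R, x = r • one) ∧
    (∀ x ∈ F T 1, ∃ r ∈ Ideal.span (c '' (T : Set G)), d x = r • one) ∧ one ∈ F T 0 ∧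
    (∀ n, (#T : ℤ) < n → ∀ x ∈ F T n, x = 0) := by
  induction T using Finset.induction_on with
  | empty =>
    refine ⟨fun n hn x hx => h.ne n (by omega) x hx, h.zero, fun x hx => ?_, h.one_mem,
      fun n hn x hx => h.ne n (by simp at hn; omega) x hx⟩
    refine ⟨0, Submodule.zero_mem _, ?_⟩
    rw [h.ne 1 (by omega) x hx, map_zero, zero_smul]
  | insert g T hgT ih =>
    have hg : g ∈ U := hT (mem_insert_self g T)
    have hT' : T ⊆ U := fun a ha => hT (mem_insert_of_mem ha)
    obtain ⟨h1, h2, h3, h4, h5⟩ := ih hT'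
    have hd1 : ∀ r : R, d (r • one) = 0 := by
      intro r
      have := h.dF T hT' 0 (r • one) (h.F_smul T hT' 0 r one h4)
      exact h1 _ (by norm_num) _ this
    refine ⟨?_, ?_, ?_, ?_, ?_⟩
    · intro n hn x hx
      obtain ⟨a, ha, b, hb, rfl⟩ := h.ex T hT' g hg hgT n x hx
      rw [h1 n hn a ha, h1 (n - 1) (by omega) b hb, map_zero, add_zero]
    · intro x hx
      obtain ⟨a, ha, b, hb, rfl⟩ := h.ex T hT' g hg hgT 0 x hx
      rw [h1 (0 - 1) (by omega) b hb, map_zero, add_zero]
      exact h2 a ha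
    · intro x hx
      obtain ⟨a, ha, b, hb, rfl⟩ := h.ex T hT' g hg hgT 1 x hx
      obtain ⟨r, hr, hra⟩ := h3 a ha
      obtain ⟨s, rfl⟩ := h2 b (by simpa using hb)
      refine ⟨r + c g * s, ?_, ?_⟩
      · refine add_mem (Ideal.span_mono (Set.image_mono (by simp)) hr) ?_
        exact Ideal.mul_mem_right _ _ (Ideal.subset_span ⟨g, by simp, rfl⟩)
      · rw [map_add, hra, h.dy g hg, hd1, map_zero, sub_zero, add_smul, smul_smul]
    · exact h.sub T hT' g hg hgT 0 h4
    · intro n hn x hx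
      rw [card_insert_of_notMem hgT] at hn
      obtain ⟨a, ha, b, hb, rfl⟩ := h.ex T hT' g hg hgT n x hx
      rw [h5 n (by push_cast at hn; omega) a ha, h5 (n - 1) (by push_cast at hn; omega) b hb,
        map_zero, add_zero]

theorem Kos.d_one (h : Kos d F y c one U) (r : R) : d (r • one) = 0 := by
  have := h.dF ∅ (empty_subset _) 0 (r • one) (h.F_smul ∅ (empty_subset _) 0 r one h.one_mem)
  exact h.ne _ (by norm_num) _ this

/-- The ideal generated by the `c g`, `g ∈ T`, kills the homology of `F T`. -/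
theorem Kos.kill (h : Kos d F y c one U) {T : Finset G} (hT : T ⊆ U) {r : R}
    (hr : r ∈ Ideal.span (c '' (T : Set G))) {n : ℤ} {x : M} (hx : x ∈ F T n) (hdx : d x = 0) :
    ∃ w ∈ F T (n + 1), d w = r • x := by
  induction hr using Submodule.span_induction with
  | mem s hs =>
    obtain ⟨g, hg, rfl⟩ := hs
    refine ⟨y g x, h.yF T hT g hg n x hx, ?_⟩
    rw [h.dy g (hT hg), hdx, map_zero, sub_zero]
  | zero => exact ⟨0, zero_mem _, by rw [map_zero, zero_smul]⟩
  | add s t _ _ hs ht =>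
    obtain ⟨w, hw, hws⟩ := hs
    obtain ⟨v, hv, hvt⟩ := ht
    exact ⟨w + v, add_mem hw hv, by rw [map_add, hws, hvt, add_smul]⟩
  | smul a s _ hs =>
    obtain ⟨w, hw, hws⟩ := hs
    exact ⟨a • w, h.F_smul T hT _ a w hw, by rw [h.d_smul, hws, smul_smul, smul_eq_mul]⟩

/-- `H_0` of `F T` is not zero if the `c g` generate a proper ideal. -/
theorem Kos.not_ex_zero (h : Kos d F y c one U) {T : Finset G} (hT : T ⊆ U)
    (h1 : (1 : R) ∉ Ideal.span (c '' (T : Set G))) : ¬ Ex d (F T) 0 := by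
  intro hex
  obtain ⟨b1, b2, b3, b4, b5⟩ := h.basic hT
  obtain ⟨w, hw, hww⟩ := hex one b4 (by simpa using h.d_one (1 : R))
  obtain ⟨r, hr, hrw⟩ := b3 w (by simpa using hw)
  rw [hww] at hrw
  have : (r - 1 : R) • one = 0 := by rw [sub_smul, one_smul, ← hrw, sub_self]
  have := h.inj _ this
  exact h1 (by rwa [← sub_eq_zero.1 this])

/-- Adding generators whose differentials are nilpotent modulo the ideal generated by the
differentials of the old ones. -/
theorem Kos.isSup_union (h : Kos d F y c one U) {T : Finset G} (hT : T ⊆ U) (V : Finset G)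
    (hV : V ⊆ U) (hd : Disjoint T V)
    (hnil : ∀ g ∈ V, ∃ N : ℕ, c g ^ N ∈ Ideal.span (c '' (T : Set G))) {s : ℤ}
    (hs : IsSup d (F T) s) : IsSup d (F (V ∪ T)) (s + #V) := by
  induction V using Finset.induction_on with
  | empty => simpa using hs
  | insert g V hgV ih =>
    have hg : g ∈ U := hV (mem_insert_self g V)
    have hV' : V ⊆ U := fun a ha => hV (mem_insert_of_mem ha)
    have hgT : g ∉ T := fun hgT => disjoint_left.1 hd hgT (mem_insert_self g V)
    have hd' : Disjoint T V := disjoint_left.2 fun a ha hav =>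
      disjoint_left.1 hd ha (mem_insert_of_mem hav)
    have ih' := ih hV' hd' (fun a ha => hnil a (mem_insert_of_mem ha))
    have hVT : V ∪ T ⊆ U := union_subset hV' hT
    obtain ⟨N, hN⟩ := hnil g (mem_insert_self g V)
    have hgVT : g ∉ V ∪ T := by
      rw [mem_union]
      rintro (h1 | h1)
      · exact hgV h1
      · exact hgT h1
    have hstep := (h.odd hVT hg hgVT).isSup le_rfl ih' N (by
      intro _ x hx hdx
      rw [smulHom_iterate]
      exact h.kill hVT (Ideal.span_mono (Set.image_mono (by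
        intro a ha
        simp only [coe_union, Set.mem_union]
        exact Or.inr ha)) hN) hx hdx)
    rw [insert_union, card_insert_of_notMem hgV]
    rwa [show s + ((#V + 1 : ℕ) : ℤ) = s + #V + 1 by push_cast; ring]

/-- Adding one generator whose differential is not a zero divisor modulo the old ones. -/
theorem Kos.isSup_regular (h : Kos d F y c one U) {T : Finset G} (hT : T ⊆ U)
    (hs : ∀ n, 0 < n → Ex d (F T) n) {g : G} (hg : g ∈ U) (hgT : g ∉ T)
    (hreg : ∀ r : R, c g * r ∈ Ideal.span (c '' (T : Set G)) → r ∈ Ideal.span (c '' (T : Set G))) :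
    ∀ n, 0 < n → Ex d (F (insert g T)) n := by
  intro n hn
  have hodd := h.odd hT hg hgT
  by_cases h1 : n = 1
  · subst h1
    intro x hx hdx
    obtain ⟨b1, b2, b3, b4, b5⟩ := h.basic hT
    obtain ⟨a, ha, b, hb, rfl⟩ := h.ex T hT g hg hgT 1 x hx
    rw [show (1 : ℤ) - 1 = 0 by norm_num] at hb
    obtain ⟨s, rfl⟩ := b2 b hb
    obtain ⟨r, hr, hra⟩ := b3 a ha
    have h2 : (r + c g * s) • one = 0 := by
      rw [map_add, hra, h.dy g hg, h.d_one, map_zero, sub_zero, smul_smul] at hdx
      rw [add_smul, hdx]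
    have h3 := h.inj _ h2
    have h4 : s ∈ Ideal.span (c '' (T : Set G)) := by
      apply hreg
      rw [show c g * s = -r by linear_combination h3]
      exact neg_mem hr
    -- `s • one` is a boundary in `F T`
    obtain ⟨w, hw, hws⟩ := h.kill hT h4 b4 (by simpa using h.d_one (1 : R))
    rw [zero_add] at hw
    -- `a + y g (s • one) - ... `: `d (y g w) = c g • w - y g (d w)`
    have h5 : d (a + c g • w) = 0 := by
      rw [map_add, hra, h.d_smul, hws, smul_smul, ← add_smul, h2]
    have ha' : a + c g • w ∈ F T 1 := add_mem ha (h.F_smul T hT 1 _ w hw)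
    obtain ⟨v, hv, hva⟩ := hs 1 (by norm_num) _ ha' h5
    refine ⟨v - y g w, sub_mem (h.sub T hT g hg hgT _ hv) ?_, ?_⟩
    · exact hodd.yB 1 w hw
    · rw [map_sub, hva, h.dy g hg, hws]; abel
  · exact hodd.above le_rfl (s := 0) hs n (by omega)

/-- A regular sequence. -/
theorem Kos.isSup_zero (h : Kos d F y c one U) (D : ℕ) (σ : ℕ → G)
    (hσ : ∀ j < D, σ j ∈ U) (hσi : ∀ i < D, ∀ j < D, σ i = σ j → i = j)
    (hreg : ∀ j < D, ∀ r : R, c (σ j) * r ∈ Ideal.span (c '' ((range j).image σ : Finset G)) →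
      r ∈ Ideal.span (c '' ((range j).image σ : Finset G))) (D' : ℕ) (hD' : D' ≤ D) :
    ∀ n, 0 < n → Ex d (F ((range D').image σ)) n := by
  induction D' with
  | zero =>
    intro n hn x hx _
    rw [range_zero, image_empty] at hx ⊢
    exact ⟨0, zero_mem _, by rw [map_zero, h.ne n (by omega) x hx]⟩
  | succ j ih =>
    have hTU : (range j).image σ ⊆ U := by
      intro a ha
      obtain ⟨i, hi, rfl⟩ := mem_image.1 ha
      exact hσ i (by rw [mem_range] at hi; omega)
    rw [range_add_one, image_insert]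
    refine h.isSup_regular hTU (ih (by omega)) (hσ j (by omega)) ?_ (hreg j (by omega))
    intro hm
    obtain ⟨i, hi, hij⟩ := mem_image.1 hm
    rw [mem_range] at hi
    have := hσi i (by omega) j (by omega) hij
    omega

/-- Step (5). -/
theorem Kos.isSup (h : Kos d F y c one U) (S : Finset G) (hS : S ⊆ U) (D : ℕ) (σ : ℕ → G)
    (hσ : ∀ j < D, σ j ∈ U) (hσi : ∀ i < D, ∀ j < D, σ i = σ j → i = j)
    (hσS : ∀ j < D, σ j ∉ S)
    (hreg : ∀ j < D, ∀ r : R, c (σ j) * r ∈ Ideal.span (c '' ((range j).image σ : Finset G)) →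
      r ∈ Ideal.span (c '' ((range j).image σ : Finset G)))
    (hS1 : (1 : R) ∉ Ideal.span (c '' (S : Set G)))
    (hθ1 : (1 : R) ∉ Ideal.span (c '' ((range D).image σ : Finset G)))
    (hnil1 : ∀ g ∈ S, ∃ N : ℕ, c g ^ N ∈ Ideal.span (c '' ((range D).image σ : Finset G)))
    (hnil2 : ∀ j < D, ∃ N : ℕ, c (σ j) ^ N ∈ Ideal.span (c '' (S : Set G))) :
    IsSup d (F S) (#S - D) := by
  set Θ : Finset G := (range D).image σ with hΘ
  have hΘU : Θ ⊆ U := by
    intro a ha
    obtain ⟨i, hi, rfl⟩ := mem_image.1 ha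
    exact hσ i (by rw [mem_range] at hi; omega)
  have hcard : #Θ = D := by
    rw [hΘ, card_image_of_injOn, card_range]
    intro i hi j hj hij
    simp only [coe_range, Set.mem_Iio] at hi hj
    exact hσi i hi j hj hij
  have hdisj : Disjoint Θ S := by
    rw [disjoint_left]
    intro a ha haS
    obtain ⟨i, hi, rfl⟩ := mem_image.1 ha
    exact hσS i (by rw [mem_range] at hi; omega) haS
  have h0 : IsSup d (F Θ) 0 := ⟨fun n hn => h.isSup_zero D σ hσ hσi hreg D le_rfl n hn,
    h.not_ex_zero hΘU hθ1⟩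
  have h1 := h.isSup_union hΘU S hS hdisj hnil1 h0
  obtain ⟨b1, b2, b3, b4, b5⟩ := h.basic hS
  obtain ⟨s, -, -, hs⟩ := exists_isSup (d := d) (A := F S) (#S : ℤ) 0
    (fun n hn x hx _ => ⟨0, zero_mem _, by rw [map_zero, b5 n hn x hx]⟩) (h.not_ex_zero hS hS1)
  have h2 := h.isSup_union hS Θ hΘU hdisj.symm (by
    intro g hg
    obtain ⟨i, hi, rfl⟩ := mem_image.1 hg
    exact hnil2 i (by rw [mem_range] at hi; omega)) hs
  rw [union_comm] at h2
  have h3 := h1.unique h2
  rw [hcard] at h3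
  have h4 : s = #S - D := by omega
  rwa [← h4]

end Pool.Agent.Helper67.QB
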