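import Pool.Agent.Helper67.QB.KInst
import Pool.Agent.Helper67.QB.Sorted
import Pool.Agent.Helper28.QB.NM

/-!
PROJECT QB, leaf (S): the chain argument for the ambient algebra.
-/

set_option autoImplicit false
set_option linter.unusedSectionVars false

namespace Pool.Agent.Helper67.QB

open Pool.Agent.Helper44.QB Pool.Agent.Helper44.QA Finset

universe u

section

variable {k R : Type u} [Field k] [CommRing R] [Algebra k R]
  {O : Type} [Fintype O] [LinearOrder O] {b : ℕ}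
  {𝒜 : ℕ → Submodule k R} {δ w κ : O ⊕ Fin b → ℤ} {T : DD R O b}

/-- The parts of large `K`-weight as families of additive subgroups. -/
noncomputable def FQ (𝒜 : ℕ → Submodule k R) (δ κ : O ⊕ Fin b → ℤ) (q : ℤ)
    (S : Finset (O ⊕ Fin b)) (n : ℤ) : AddSubgroup (AA R O b) :=
  (Fq 𝒜 δ κ (S : Set (O ⊕ Fin b)) n q).toAddSubgroup

theorem le_lin (hδ : ∀ g, 1 ≤ δ g) (m : Mo O b) :
    (∀ i ∈ m.1, δ (Sum.inl i) ≤ lin δ m) ∧ ∀ j, m.2 j ≠ 0 → δ (Sum.inr j) ≤ lin δ m := by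
  have h1 : 0 ≤ ∑ i ∈ m.1, δ (Sum.inl i) :=
    Finset.sum_nonneg fun i _ => (zero_le_one.trans (hδ _))
  have h2 : 0 ≤ ∑ j, (m.2 j : ℤ) * δ (Sum.inr j) :=
    Finset.sum_nonneg fun j _ => mul_nonneg (by positivity) (zero_le_one.trans (hδ _))
  unfold lin
  constructor
  · intro i hi
    have h3 := Finset.single_le_sum (f := fun i => δ (Sum.inl i)) (s := m.1)
      (fun i _ => zero_le_one.trans (hδ (Sum.inl i))) hi
    linarith
  · intro j hj
    have h3 := Finset.single_le_sum (f := fun j => (m.2 j : ℤ) * δ (Sum.inr j)) (s := univ)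
      (fun j _ => mul_nonneg (by positivity) (zero_le_one.trans (hδ (Sum.inr j)))) (mem_univ j)
    have h4 : (1 : ℤ) ≤ (m.2 j : ℤ) := by exact_mod_cast Nat.one_le_iff_ne_zero.2 hj
    have h5 := hδ (Sum.inr j)
    nlinarith

/-- Only the generators of degree `≤ n` matter in degree `n`. -/
theorem Ft_small (hδ : ∀ g, 1 ≤ δ g) {S S' : Set (O ⊕ Fin b)} {n : ℤ}
    (h : ∀ g ∈ S, δ g ≤ n → g ∈ S') {x : AA R O b} (hx : x ∈ Ft k δ S n) : x ∈ Ft k δ S' n := by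
  rw [mem_Ft] at hx ⊢
  intro m hm
  obtain ⟨h1, h2⟩ := hx m hm
  obtain ⟨h3, h4⟩ := le_lin hδ m
  refine ⟨⟨fun i hi => h _ (h1.1 i hi) ?_, fun j hj => h _ (h1.2 j hj) ?_⟩, h2⟩
  · rw [← h2]; exact h3 i hi
  · rw [← h2]; exact h4 j hj

theorem cl_ini (hT : Gr 𝒜 δ w T) {Gen S : Finset (O ⊕ Fin b)} (hGen : Cl k δ T (Gen : Set _))
    (hS : Ini δ Gen S) : Cl k δ T (S : Set _) := by
  intro g hg
  refine Ft_small hT.pos ?_ (hGen g (hS.1 hg))
  intro g' hg' h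
  exact hS.2.2 g hg g' hg' (by omega)

/-- The differentials of the generators of degree one generate an ideal of elements of positive
degree. -/
theorem span_le [GradedAlgebra 𝒜] (hT : Gr 𝒜 δ w T) {S : Set (O ⊕ Fin b)} {r : R}
    (hr : r ∈ Ideal.span ((fun g => co (∅, 0) (T g)) '' S)) : r ∈ AGe 𝒜 1 := by
  induction hr using Submodule.span_induction with
  | mem r hr =>
    obtain ⟨g, hg, rfl⟩ := hr
    have h1 := (mem_Cd.1 (hT.val g (∅, 0))).2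
    rw [lin_zero, sub_zero] at h1
    exact AGe_mono 𝒜 (hT.wpos g) (AZ_le_AGe 𝒜 _ h1)
  | zero => exact Submodule.zero_mem _
  | add r s _ _ hr hs => exact Submodule.add_mem _ hr hs
  | smul a r _ hr => exact AGe_ideal 𝒜 a hr

theorem not_ex [CharZero k] [GradedAlgebra 𝒜] [Nontrivial R] (hT : Gr 𝒜 δ w T)
    (S : Finset (O ⊕ Fin b)) : ¬ Ex T.d.toAddMonoidHom (FF k δ S) 0 := by
  intro hex
  obtain ⟨x, hx, hdx⟩ := hex 1 (one_mem_Ft _) (d_one T)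
  set K : Finset (O ⊕ Fin b) := univ.filter fun g => δ g = 1 with hK
  have hx' : x ∈ FF k δ K 1 := by
    rw [zero_add] at hx
    refine Ft_small hT.pos ?_ hx
    intro g _ h
    have := hT.pos g
    rw [hK, coe_filter]
    exact ⟨mem_univ g, by omega⟩
  obtain ⟨r, hr, hrx⟩ := ((kos hT).basic (T := K) (Finset.Subset.refl _)).2.2.1 x hx'
  have hr' : r ∈ AGe 𝒜 1 := span_le hT (S := (K : Set (O ⊕ Fin b))) hr
  have h1 : (1 : AA R O b) = r • 1 := hdx.symm.trans hrx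
  have h2 := congrArg (co ((∅, 0) : Mo O b)) h1
  rw [map_smul, co_nontrivial, smul_eq_mul, mul_one] at h2
  rw [← h2] at hr'
  exact Helper28.QB.one_notMem_AGe 𝒜 hr'

theorem Fq_le_Ft {S : Set (O ⊕ Fin b)} {n q : ℤ} {x : AA R O b} (hx : x ∈ Fq 𝒜 δ κ S n q) :
    x ∈ Ft k δ S n :=
  Pc_mono (φ' := fun _ => ⊤) (Set.Subset.refl _) (fun _ _ _ => le_top) hx

theorem Ft_mul_Fq [GradedAlgebra 𝒜] (hκ0 : ∀ g, 0 ≤ κ g) {S : Set (O ⊕ Fin b)} {n n' q : ℤ}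
    {x y : AA R O b} (hx : x ∈ Ft k δ S n) (hy : y ∈ Fq 𝒜 δ κ S n' q) :
    x * y ∈ Fq 𝒜 δ κ S (n + n') q := by
  refine mul_mem (φ := fun _ => (⊤ : Submodule k R)) ?_ hx hy
  intro m m' hd r _ r' hr'
  rw [lin_madd κ hd]
  refine AGe_mono 𝒜 ?_ (AGe_ideal 𝒜 r hr')
  have := lin_nonneg hκ0 m
  linarith

theorem Fq_mul_Ft [GradedAlgebra 𝒜] (hκ0 : ∀ g, 0 ≤ κ g) {S : Set (O ⊕ Fin b)} {n n' q : ℤ}
    {x y : AA R O b} (hx : x ∈ Fq 𝒜 δ κ S n q) (hy : y ∈ Ft k δ S n') :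
    x * y ∈ Fq 𝒜 δ κ S (n + n') q := by
  refine mul_mem (φ' := fun _ => (⊤ : Submodule k R)) ?_ hx hy
  intro m m' hd r hr r' _
  rw [lin_madd κ hd, mul_comm]
  refine AGe_mono 𝒜 ?_ (AGe_ideal 𝒜 r' hr)
  have := lin_nonneg hκ0 m'
  linarith

theorem mulLeft_iterate (z x : AA R O b) (N : ℕ) :
    (LinearMap.mulLeft R z).toAddMonoidHom^[N] x = z ^ N * x := by
  induction N with
  | zero => simp
  | succ N ih =>
    rw [Function.iterate_succ_apply', ih, pow_succ', mul_assoc]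
    rfl

/-- One step of the chain. -/
theorem step_inst [CharZero k] [Algebra ℚ R] [GradedAlgebra 𝒜] (hT : Gr 𝒜 δ w T)
    (hκ0 : ∀ g, 0 ≤ κ g) (hκ1 : ∀ g, δ g = 1 → κ g = w g) (hκ : ∀ g, δ g ≠ 1 → κ g = 0) (q : ℤ)
    {S : Finset (O ⊕ Fin b)} {g : O ⊕ Fin b} (hgS : g ∉ S) (hS : Cl k δ T (S : Set _))
    (hTg : T g ∈ Ft k δ (S : Set (O ⊕ Fin b)) (δ g - 1)) (h2 : 2 ≤ δ g)
    (hN : Odd (δ g) → ∀ α, co (∅, α) (T g) ∈ AGe 𝒜 1) :
    Step T.d.toAddMonoidHom (FF k δ S) (FF k δ (insert g S)) (FQ 𝒜 δ κ q S)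
      (FQ 𝒜 δ κ q (insert g S)) (δ g) := by
  have hg0 : κ g = 0 := hκ g (by omega)
  have hS' : Cl k δ T (insert g (S : Set (O ⊕ Fin b))) := by
    intro h hh
    rcases hh with rfl | hh
    · exact Pc_mono (Set.subset_insert _ _) (fun _ _ _ => le_rfl) hTg
    · exact Pc_mono (Set.subset_insert _ _) (fun _ _ _ => le_rfl) (hS h hh)
  cases g with
  | inl i =>
    left
    refine ⟨hT.odd i, (LinearMap.mulLeft R (gg (Sum.inl i))).toAddMonoidHom,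
      (LinearMap.mulLeft R (T (Sum.inl i))).toAddMonoidHom, ?_⟩
    obtain ⟨N, hNN⟩ := Helper28.QB.pow_mem_Fq 𝒜 hκ0 hTg (hN (hT.odd i)) q
    refine ⟨N, oddStep_FF hT hgS hS hTg, ?_, ?_⟩
    · have h := oddStep (k := k) hT (S := (S : Set (O ⊕ Fin b))) (i := i) (by simpa using hgS)
        (φ := fun m => AGe 𝒜 (q - lin κ m)) (fun m hm => by
          rw [lin_ins κ hm, hg0, add_zero]) (fun n x hx => d_Fq hT hS hκ0 hκ1 hκ hx) (by
          intro n x hx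
          have := Ft_mul_Fq hκ0 hTg hx
          rwa [show δ (Sum.inl i) - 1 + n = n + δ (Sum.inl i) - 1 by ring] at this)
      unfold FQ Fq
      rw [Finset.coe_insert]
      exact h
    · intro n x hx
      rw [mulLeft_iterate]
      have := Fq_mul_Ft hκ0 hNN hx
      rwa [add_comm] at this
  | inr j =>
    right
    refine ⟨hT.even j, (dd (R := R) (Sum.inr j)).toAddMonoidHom, ?_, ?_⟩
    · obtain ⟨h3, h4, h5, h6⟩ := evenStep (k := k) (by simpa using hgS) hS hTg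
        (φ := fun _ => (⊤ : Submodule k R)) (fun _ => rfl)
      unfold FF Ft
      rw [Finset.coe_insert]
      exact ⟨fun n x hx => d_Ft hS' hx, h3, h4, h5, h6⟩
    · obtain ⟨h3, h4, h5, h6⟩ := evenStep (k := k) (by simpa using hgS) hS hTg
        (φ := fun m => AGe 𝒜 (q - lin κ m)) (fun m => by
          rw [lin_ins κ (fun i' hi' => by cases hi'), hg0, add_zero])
      unfold FQ Fq
      rw [Finset.coe_insert]
      exact ⟨fun n x hx => d_Fq hT hS' hκ0 hκ1 hκ hx, h3, h4, h5, h6⟩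

/-- (S) for the ambient algebra. -/
theorem s_core [CharZero k] [Algebra ℚ R] [GradedAlgebra 𝒜] [Nontrivial R] (hT : Gr 𝒜 δ w T)
    (hκ0 : ∀ g, 0 ≤ κ g) (hκ1 : ∀ g, δ g = 1 → κ g = w g) (hκ : ∀ g, δ g ≠ 1 → κ g = 0)
    (Gen : Finset (O ⊕ Fin b)) (hGen : Cl k δ T (Gen : Set _))
    (hN : ∀ g ∈ Gen, 2 ≤ δ g → Odd (δ g) → ∀ α, co (∅, α) (T g) ∈ AGe 𝒜 1) (q : ℤ)
    (hq : ∀ n, Ex T.d.toAddMonoidHom (FQ 𝒜 δ κ q (Gen.filter fun g => δ g ≤ 1)) n)
    (hbdd : ∃ t, ∀ n, t < n → Ex T.d.toAddMonoidHom (FF k δ Gen) n)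
    (hK : IsSup T.d.toAddMonoidHom (FF k δ (Gen.filter fun g => δ g ≤ 1))
      ((#(Gen.filter fun g => 2 ≤ δ g ∧ Even (δ g)) : ℤ) -
        #(Gen.filter fun g => 2 ≤ δ g ∧ Odd (δ g)))) :
    IsSup T.d.toAddMonoidHom (FF k δ (Gen.filter fun g => δ g ≤ 2)) 0 ∧
      IsSup T.d.toAddMonoidHom (FF k δ Gen) 0 := by
  refine sorted_core (fun x => hT.dd_sq x) δ Gen (FF k δ) (FQ 𝒜 δ κ q) ?_ ?_ hq ?_ ?_ hbdd hK
  · intro S hS g hg hgS h2 hini _
    refine step_inst hT hκ0 hκ1 hκ q hgS (cl_ini hT hGen hS) ?_ h2 (hN g hg h2)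
    refine Ft_small hT.pos ?_ (hGen g hg)
    intro g' hg' h
    rcases mem_insert.1 (hini.2.2 g (mem_insert_self g S) g' hg' (by omega)) with h3 | h3
    · rw [h3] at h
      omega
    · exact h3
  · intro S _ n hn x hx
    exact Ft_neg hT.pos hn (Fq_le_Ft hx)
  · intro S _ n x hx
    exact Fq_le_Ft hx
  · intro S _
    exact not_ex hT S

end

end Pool.Agent.Helper67.QB
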